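import Pool.Agent.W856.Corner6

/-!
# Functions on the cube approximated by polynomials of low degree over `ℤ/3`
-/

set_option autoImplicit false

namespace Pool.Agent.L5helper5.WP

open Finset Pool.Agent.W856.Corner

/-- Outside of `S` the function `f` is a polynomial of degree at most `d`. -/
def Ap {N : ℕ} (d : ℕ) (S : Finset (Fin N → ZMod 2)) (f : (Fin N → ZMod 2) → ZMod 3) : Prop :=
  ∃ P ∈ LK (ZMod 3) N d, ∀ x, x ∉ S → P x = f x

variable {N d e : ℕ} {S S' : Finset (Fin N → ZMod 2)} {f g : (Fin N → ZMod 2) → ZMod 3}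

lemma Ap.mono (h : Ap d S f) (hd : d ≤ e) (hS : S ⊆ S') : Ap e S' f := by
  obtain ⟨P, hP, h1⟩ := h
  exact ⟨P, LK_mono hd hP, fun x hx => h1 x fun h => hx (hS h)⟩

lemma Ap.const (c : ZMod 3) : Ap d S fun _ => c := ⟨fun _ => c, LK_const _ _, fun _ _ => rfl⟩

lemma Ap.congr (h : Ap d S f) (hfg : ∀ x, x ∉ S → f x = g x) : Ap d S g := by
  obtain ⟨P, hP, h1⟩ := h
  exact ⟨P, hP, fun x hx => (h1 x hx).trans (hfg x hx)⟩

lemma Ap.sum {ι : Type*} (s : Finset ι) (F : ι → (Fin N → ZMod 2) → ZMod 3)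
    (h : ∀ i ∈ s, Ap d S (F i)) : Ap d S fun x => ∑ i ∈ s, F i x := by
  classical
  choose! P hP h1 using h
  refine ⟨∑ i ∈ s, P i, Submodule.sum_mem _ hP, fun x hx => ?_⟩
  rw [Finset.sum_apply]
  exact Finset.sum_congr rfl fun i hi => h1 i hi x hx

lemma Ap.smul (c : ZMod 3) (h : Ap d S f) : Ap d S fun x => c * f x := by
  obtain ⟨P, hP, h1⟩ := h
  refine ⟨c • P, Submodule.smul_mem _ _ hP, fun x hx => ?_⟩
  rw [Pi.smul_apply, smul_eq_mul, h1 x hx]

lemma Ap.add (h : Ap d S f) (h' : Ap d S g) : Ap d S fun x => f x + g x := by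
  obtain ⟨P, hP, h1⟩ := h
  obtain ⟨Q, hQ, h2⟩ := h'
  refine ⟨P + Q, Submodule.add_mem _ hP hQ, fun x hx => ?_⟩
  rw [Pi.add_apply, h1 x hx, h2 x hx]

lemma Ap.sub (h : Ap d S f) (h' : Ap d S g) : Ap d S fun x => f x - g x := by
  obtain ⟨P, hP, h1⟩ := h
  obtain ⟨Q, hQ, h2⟩ := h'
  refine ⟨P - Q, Submodule.sub_mem _ hP hQ, fun x hx => ?_⟩
  rw [Pi.sub_apply, h1 x hx, h2 x hx]

lemma Ap.mul (h : Ap d S f) (h' : Ap e S g) : Ap (d + e) S fun x => f x * g x := by
  obtain ⟨P, hP, h1⟩ := h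
  obtain ⟨Q, hQ, h2⟩ := h'
  refine ⟨P * Q, LK_mul hP hQ, fun x hx => ?_⟩
  rw [Pi.mul_apply, h1 x hx, h2 x hx]

lemma Ap.pow (h : Ap d S f) (k : ℕ) : Ap (k * d) S fun x => f x ^ k := by
  obtain ⟨P, hP, h1⟩ := h
  refine ⟨P ^ k, LK_pow k hP, fun x hx => ?_⟩
  rw [Pi.pow_apply, h1 x hx]

lemma Ap.prod {ι : Type*} (s : Finset ι) (D : ι → ℕ) (F : ι → (Fin N → ZMod 2) → ZMod 3)
    (h : ∀ i ∈ s, Ap (D i) S (F i)) : Ap (∑ i ∈ s, D i) S fun x => ∏ i ∈ s, F i x := by
  classical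
  choose! P hP h1 using h
  refine ⟨∏ i ∈ s, P i, LK_prod s D P hP, fun x hx => ?_⟩
  rw [Finset.prod_apply]
  exact Finset.prod_congr rfl fun i hi => h1 i hi x hx

/-- `[a = 0]` as a polynomial over `ℤ/3`. -/
lemma ite_zero (a : ZMod 3) : (if a = 0 then (1 : ZMod 3) else 0) = 1 - a ^ 2 := by
  revert a; decide

/-- a nonzero linear form vanishes on at most half of the space -/
lemma ker_half {ι : Type*} [Fintype ι] [DecidableEq ι] (e : ι → ZMod 3) (h : ∃ j, e j ≠ 0) :
    2 * (univ.filter fun r : ι → ZMod 3 => ∑ j, r j * e j = 0).card ≤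
      Fintype.card (ι → ZMod 3) := by
  classical
  obtain ⟨j0, he⟩ := h
  have h1 : (univ.filter fun r : ι → ZMod 3 => ∑ j, r j * e j = 0).card ≤
      (univ.filter fun r : ι → ZMod 3 => ¬ ∑ j, r j * e j = 0).card := by
    refine Finset.card_le_card_of_injOn (fun r => r + Pi.single j0 1) ?_ ?_
    · intro r hr
      rw [Finset.mem_coe, Finset.mem_filter] at hr ⊢
      refine ⟨Finset.mem_univ _, ?_⟩
      have h2 : ∑ j, (r + Pi.single j0 1 : ι → ZMod 3) j * e j = ∑ j, r j * e j + e j0 := by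
        simp only [Pi.add_apply, add_mul, Finset.sum_add_distrib]
        congr 1
        rw [Finset.sum_eq_single j0]
        · simp
        · intro j _ hj
          rw [Pi.single_eq_of_ne hj, zero_mul]
        · intro h; exact absurd (Finset.mem_univ _) h
      show ¬ ∑ j, (r + Pi.single j0 1 : ι → ZMod 3) j * e j = 0
      rw [h2, hr.2, zero_add]
      exact he
    · intro r _ r' _ hrr
      exact add_right_cancel hrr
  have h2 := Finset.card_filter_add_card_filter_not (s := (univ : Finset (ι → ZMod 3)))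
    (fun r => ∑ j, r j * e j = 0)
  rw [Finset.card_univ] at h2
  omega

lemma ker_pow {ι : Type*} [Fintype ι] [DecidableEq ι] (t : ℕ) (e : ι → ZMod 3)
    (h : ∃ j, e j ≠ 0) :
    2 ^ t * (univ.filter fun w : Fin t → ι → ZMod 3 => ∀ τ, ∑ j, w τ j * e j = 0).card ≤
      Fintype.card (Fin t → ι → ZMod 3) := by
  classical
  set Ker : Finset (ι → ZMod 3) := univ.filter fun r => ∑ j, r j * e j = 0 with hKer
  have h1 : (univ.filter fun w : Fin t → ι → ZMod 3 => ∀ τ, ∑ j, w τ j * e j = 0) =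
      Fintype.piFinset fun _ : Fin t => Ker := by
    ext w
    simp [Fintype.mem_piFinset, hKer]
  rw [h1, Fintype.card_piFinset]
  simp only [Finset.prod_const, Finset.card_univ, Fintype.card_fin]
  rw [← mul_pow, Fintype.card_fun, Fintype.card_fin]
  exact Nat.pow_le_pow_left (ker_half e h) t

/-- One test that all the values vanish. -/
lemma one_test {ι : Type*} [Fintype ι] {t : ℕ} (ht : t ≤ N)
    (P : ι → (Fin N → ZMod 2) → ZMod 3) (hP : ∀ i, P i ∈ LK (ZMod 3) N d) :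
    ∃ (B : Finset (Fin N → ZMod 2)), B.card ≤ 2 ^ (N - t) ∧
      ∃ Q ∈ LK (ZMod 3) N (t * (2 * d)), ∀ x, x ∉ B → Q x = if ∀ i, P i x = 0 then 1 else 0 := by
  classical
  let bad : (Fin t → ι → ZMod 3) → Finset (Fin N → ZMod 2) := fun w =>
    univ.filter fun x => (∃ i, P i x ≠ 0) ∧ ∀ τ, ∑ i, w τ i * P i x = 0
  obtain ⟨w, hw⟩ : ∃ w, 2 ^ t * (bad w).card ≤ 2 ^ N := by
    by_contra hcon
    push Not at hcon
    have h1 : ∑ w : Fin t → ι → ZMod 3, 2 ^ N < ∑ w, 2 ^ t * (bad w).card :=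
      Finset.sum_lt_sum_of_nonempty Finset.univ_nonempty fun w _ => hcon w
    have h2 : ∑ w, 2 ^ t * (bad w).card ≤ ∑ _w : Fin t → ι → ZMod 3, 2 ^ N := by
      rw [← Finset.mul_sum]
      simp only [bad, Finset.card_filter]
      rw [Finset.sum_comm, Finset.mul_sum]
      calc ∑ x : Fin N → ZMod 2, 2 ^ t * ∑ w : Fin t → ι → ZMod 3,
            (if (∃ i, P i x ≠ 0) ∧ ∀ τ, ∑ i, w τ i * P i x = 0 then 1 else 0)
          ≤ ∑ _x : Fin N → ZMod 2, Fintype.card (Fin t → ι → ZMod 3) := by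
            refine Finset.sum_le_sum fun x _ => ?_
            by_cases hx : ∃ i, P i x ≠ 0
            · have := ker_pow t (fun i => P i x) hx
              rw [Finset.card_filter] at this
              simpa [hx] using this
            · simp [hx]
        _ = ∑ _w : Fin t → ι → ZMod 3, 2 ^ N := by
            simp only [Finset.sum_const, Finset.card_univ, smul_eq_mul]
            rw [mul_comm]
            congr 1
            simp
    omega
  refine ⟨bad w, ?_, fun x => ∏ τ : Fin t, (1 - (∑ i, w τ i * P i x) ^ 2), ?_, ?_⟩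
  · have h1 : 2 ^ N = 2 ^ t * 2 ^ (N - t) := by rw [← pow_add]; congr 1; omega
    rw [h1] at hw
    exact Nat.le_of_mul_le_mul_left hw (by positivity)
  · have h1 : (fun x => ∏ τ : Fin t, (1 - (∑ i, w τ i * P i x) ^ 2)) =
        ∏ τ : Fin t, ((1 : (Fin N → ZMod 2) → ZMod 3) - (∑ i, w τ i • P i) ^ 2) := by
      funext x
      rw [Finset.prod_apply]
      refine Finset.prod_congr rfl fun τ _ => ?_
      rw [Pi.sub_apply, Pi.pow_apply, Finset.sum_apply, Pi.one_apply]
      simp [smul_eq_mul]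
    rw [h1]
    have h2 := LK_prod (K := ZMod 3) (n := N) (univ : Finset (Fin t)) (fun _ => 2 * d)
      (fun τ => (1 : (Fin N → ZMod 2) → ZMod 3) - (∑ i, w τ i • P i) ^ 2) fun τ _ => by
        refine Submodule.sub_mem _ (LK_one _) (LK_pow _ ?_)
        exact Submodule.sum_mem _ fun j _ => Submodule.smul_mem _ _ (hP j)
    simpa using h2
  · intro x hx
    simp only [bad, Finset.mem_filter, Finset.mem_univ, true_and, not_and, not_forall] at hx
    split_ifs with h
    · refine Finset.prod_eq_one fun τ _ => ?_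
      rw [Finset.sum_eq_zero fun i _ => by rw [h i, mul_zero]]
      simp
    · push Not at h
      obtain ⟨τ, hτ⟩ := hx h
      refine Finset.prod_eq_zero (Finset.mem_univ τ) ?_
      rw [← ite_zero, if_neg hτ]

/-- A family of tests that all the values vanish. -/
lemma test_family {κ ι : Type*} [Fintype κ] [Fintype ι] {t : ℕ} (ht : t ≤ N)
    (F : κ → ι → (Fin N → ZMod 2) → ZMod 3) (hF : ∀ a i, Ap d S (F a i)) :
    ∃ S', S ⊆ S' ∧ S'.card ≤ S.card + Fintype.card κ * 2 ^ (N - t) ∧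
      ∀ a, Ap (t * (2 * d)) S' fun x => if ∀ i, F a i x = 0 then 1 else 0 := by
  classical
  choose P hP h1 using hF
  choose B hB Q hQ h2 using fun a => one_test ht (P a) (hP a)
  refine ⟨S ∪ univ.biUnion B, Finset.subset_union_left, ?_, fun a => ⟨Q a, hQ a, fun x hx => ?_⟩⟩
  · refine (Finset.card_union_le _ _).trans (Nat.add_le_add_left ?_ _)
    refine Finset.card_biUnion_le.trans ?_
    refine (Finset.sum_le_sum fun a _ => hB a).trans ?_
    simp
  · rw [Finset.mem_union, not_or] at hx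
    have h3 : x ∉ B a := fun h => hx.2 (Finset.mem_biUnion.2 ⟨a, Finset.mem_univ _, h⟩)
    rw [h2 a x h3]
    simp only [h1 a _ x hx.1]

end Pool.Agent.L5helper5.WP
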