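import Pool.Agent.L5helper5.WP.Defs

/-!
# The parity language is in `ALOGTIME`
-/

set_option autoImplicit false

namespace Pool.Agent.L5helper5.WP

namespace Par

/-- tape symbols -/
inductive Sy
  | bl
  | ze
  | on
deriving DecidableEq

/-- states -/
inductive St
  | start
  | chk
  | put
  | ex (q : Bool)
  | un (q r : Bool)
  | fin (q : Bool)
  | acc
  | rej
deriving DecidableEq

instance : Fintype Sy := ⟨{.bl, .ze, .on}, fun x => by cases x <;> decide⟩

instance : Finite St := by
  have h : Function.Injective (fun s : St => (match s with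
    | .start => (0, false, false)
    | .chk => (1, false, false)
    | .put => (2, false, false)
    | .ex q => (3, q, false)
    | .un q r => (4, q, r)
    | .fin q => (5, q, false)
    | .acc => (6, false, false)
    | .rej => (7, false, false) : Fin 8 × Bool × Bool)) := by
    intro a b hab
    cases a <;> cases b <;> simp_all
  exact Finite.of_injective _ h

/-- the moves -/
def stp : St → Sy → Option Bool → Set (St × Sy × SignType)
  | .start, _, _ => {(.chk, .on, 0)}
  | .chk, _, none => {(.ex true, .bl, -1)}
  | .chk, _, some _ => {(.put, .ze, 1)}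
  | .put, _, _ => {(.chk, .on, 0)}
  | .ex q, .bl, _ => {(.fin q, .bl, 0)}
  | .ex q, s, _ => {(.un q false, s, 0), (.un q true, s, 0)}
  | .un q r, _, _ => {(.ex r, .ze, -1), (.ex (xor q r), .on, -1)}
  | .fin q, s, a => {(if (a = some true ↔ q = true) then .acc else .rej, s, 0)}
  | .acc, _, _ => ∅
  | .rej, _, _ => ∅

/-- the machine -/
def M : ATM Bool where
  State := St
  Sym := Sy
  finState := inferInstance
  finSym := inferInstance
  k := 0
  blank := .bl
  one := .on
  one_ne_blank := by decide
  start := .start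
  mode
    | .acc => .accept
    | .rej => .reject
    | .un _ _ => .univ
    | _ => .exist
  query
    | .chk => true
    | .fin _ => true
    | _ => false
  step q s a := {m | (m.1, m.2.1 0, m.2.2 0) ∈ stp q (s 0) a}

/-- configurations -/
def cfg (q : St) (f : ℤ → Sy) (h : ℤ) : M.Cfg := ⟨q, fun _ => f, fun _ => h⟩

lemma next_iff (x : List Bool) (q : St) (f : ℤ → Sy) (h : ℤ) (c' : M.Cfg) :
    c' ∈ M.next x (cfg q f h) ↔ ∃ q' w d, (q', w, d) ∈ stp q (f h) (M.seen x (cfg q f h)) ∧
      c' = cfg q' (Function.update f h w) (h + (d : SignType)) := by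
  unfold ATM.next
  constructor
  · rintro ⟨w, d, h1, h2, h3⟩
    refine ⟨c'.state, w 0, d 0, h1, ?_⟩
    obtain ⟨s, t, e⟩ := c'
    unfold cfg
    have e1 : t = fun _ => Function.update f h (w 0) := by
      funext j
      have : j = 0 := Fin.fin_one_eq_zero j
      subst this
      exact h2 0
    have e2 : e = fun _ => h + (d 0 : SignType) := by
      funext j
      have : j = 0 := Fin.fin_one_eq_zero j
      subst this
      exact h3 0
    rw [e1, e2]
  · rintro ⟨q', w, d, h1, rfl⟩
    exact ⟨fun _ => w, fun _ => d, h1, fun _ => rfl, fun _ => rfl⟩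

/-- the address -/
noncomputable def addr (f : ℤ → Sy) : ℕ := M.address f

lemma addr_eq (f : ℤ → Sy) (L : ℕ) (hf : ∀ i : ℕ, L ≤ i → f i ≠ .on) :
    addr f = ∑ i ∈ Finset.range L, if f i = .on then 2 ^ i else 0 := by
  unfold addr ATM.address
  rw [finsum_eq_sum_of_support_subset (s := Finset.range L)]
  · refine Finset.sum_congr rfl fun i _ => ?_
    congr
  · intro i hi
    simp only [Function.mem_support, ne_eq, ite_eq_right_iff, Classical.not_imp] at hi
    by_contra h
    rw [Finset.coe_range, Set.mem_Iio, not_lt] at h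
    exact hf i h hi.1

lemma addr_on (f : ℤ → Sy) (L j : ℕ) (hf : ∀ i : ℕ, L ≤ i → f i ≠ .on) (hj : f j ≠ .on) :
    addr (Function.update f j .on) = addr f + 2 ^ j := by
  have h1 := addr_eq f (max L (j + 1)) fun i hi => hf i ((le_max_left _ _).trans hi)
  have h2 := addr_eq (Function.update f j .on) (max L (j + 1)) fun i hi => by
    rw [Function.update_of_ne]
    · exact hf i ((le_max_left _ _).trans hi)
    · have := (le_max_right L (j + 1)).trans hi
      intro h
      have h3 : i = j := by exact_mod_cast h
      omega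
  rw [h1, h2]
  have h4 : ∀ i ∈ Finset.range (max L (j + 1)),
      (if Function.update f j Sy.on (i : ℤ) = .on then 2 ^ i else 0) =
        (if f i = .on then 2 ^ i else 0) + if i = j then 2 ^ j else 0 := by
    intro i _
    by_cases hij : i = j
    · subst hij
      rw [Function.update_self, if_pos rfl, if_neg hj, if_pos rfl, zero_add]
    · rw [Function.update_of_ne (by exact_mod_cast hij), if_neg hij, add_zero]
  rw [Finset.sum_congr rfl h4, Finset.sum_add_distrib, Finset.sum_ite_eq' _ _ _]
  rw [if_pos (Finset.mem_range.2 (lt_of_lt_of_le (Nat.lt_succ_self j) (le_max_right _ _)))]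

/-- the number of ones in the positions `a, …, a + 2^j - 1` is odd -/
def P (x : List Bool) (j a : ℕ) : Prop :=
  Odd ((Finset.range (2 ^ j)).filter fun y => x[a + y]? = some true).card

lemma P_zero (x : List Bool) (a : ℕ) : P x 0 a ↔ x[a]? = some true := by
  unfold P
  simp only [pow_zero, Finset.range_one, Finset.filter_singleton, add_zero]
  by_cases h : x[a]? = some true
  · simp [h]
  · simp [h]

lemma P_succ (x : List Bool) (j a : ℕ) : P x (j + 1) a ↔ ¬ (P x j a ↔ P x j (a + 2 ^ j)) := by
  unfold P
  have h1 : (Finset.range (2 ^ (j + 1))).filter (fun y => x[a + y]? = some true) =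
      ((Finset.range (2 ^ j)).filter fun y => x[a + y]? = some true) ∪
      (((Finset.range (2 ^ j)).filter fun y => x[a + 2 ^ j + y]? = some true).map
        (addLeftEmbedding (2 ^ j))) := by
    ext y
    simp only [Finset.mem_filter, Finset.mem_range, Finset.mem_union, Finset.mem_map,
      addLeftEmbedding_apply, pow_succ]
    constructor
    · rintro ⟨h1, h2⟩
      rcases lt_or_ge y (2 ^ j) with h | h
      · exact Or.inl ⟨h, h2⟩
      · refine Or.inr ⟨y - 2 ^ j, ⟨by omega, ?_⟩, by omega⟩
        rw [show a + 2 ^ j + (y - 2 ^ j) = a + y by omega]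
        exact h2
    · rintro (⟨h1, h2⟩ | ⟨z, ⟨h1, h2⟩, rfl⟩)
      · exact ⟨by omega, h2⟩
      · refine ⟨by omega, ?_⟩
        rw [show a + (2 ^ j + z) = a + 2 ^ j + z by omega]
        exact h2
  rw [h1, Finset.card_union_of_disjoint, Finset.card_map, Nat.odd_add]
  · rw [← Nat.not_odd_iff_even]
    tauto
  · rw [Finset.disjoint_left]
    intro y h2 h3
    simp only [Finset.mem_filter, Finset.mem_range, Finset.mem_map, addLeftEmbedding_apply] at h2 h3
    obtain ⟨z, ⟨hz, -⟩, rfl⟩ := h3
    omega

/-- the second phase -/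
lemma phase_two (x : List Bool) (j : ℕ) : ∀ (f : ℤ → Sy) (L : ℕ) (q : Bool) (t : ℕ),
    (∀ i : ℕ, L ≤ i → f i ≠ .on) → f (-1) = .bl → (∀ i : ℕ, i < j → f i = .ze) →
    2 * j + 2 ≤ t →
    M.Halts x t (cfg (.ex q) f ((j : ℤ) - 1)) ∧
      (M.Accepts x t (cfg (.ex q) f ((j : ℤ) - 1)) ↔ (q = true ↔ P x j (addr f))) := by
  induction j with
  | zero =>
    intro f L q t hL hm hz ht
    obtain ⟨t, rfl⟩ : ∃ t', t = t' + 2 := ⟨t - 2, by omega⟩
    rw [P_zero]
    have e0 : ((0 : ℕ) : ℤ) - 1 = -1 := by norm_num
    rw [e0]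
    have hn : ∀ c', c' ∈ M.next x (cfg (.ex q) f (-1)) ↔ c' = cfg (.fin q) f (-1) := by
      intro c'
      rw [next_iff, hm]
      constructor
      · rintro ⟨q', w, d, h1, rfl⟩
        simp only [stp, Set.mem_singleton_iff, Prod.mk.injEq] at h1
        obtain ⟨rfl, rfl, rfl⟩ := h1
        rw [← hm, Function.update_eq_self]
        simp
      · rintro rfl
        refine ⟨.fin q, .bl, 0, rfl, ?_⟩
        rw [← hm, Function.update_eq_self]
        simp
    set r : St := if (x[addr f]? = some true ↔ q = true) then .acc else .rej with hr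
    have hn2 : ∀ c', c' ∈ M.next x (cfg (.fin q) f (-1)) ↔ c' = cfg r f (-1) := by
      intro c'
      have hs : M.seen x (cfg (.fin q) f (-1)) = x[addr f]? := rfl
      rw [next_iff, hs]
      constructor
      · rintro ⟨q', w, d, h1, rfl⟩
        simp only [stp, Set.mem_singleton_iff, Prod.mk.injEq] at h1
        obtain ⟨rfl, rfl, rfl⟩ := h1
        rw [Function.update_eq_self]
        simp [hr]
      · rintro rfl
        refine ⟨r, f (-1), 0, ?_, ?_⟩
        · simp only [stp, Set.mem_singleton_iff, hr]
        · rw [Function.update_eq_self]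
          simp
    have hr2 : M.mode r = .accept ∨ M.mode r = .reject := by
      rw [hr]
      split_ifs
      · exact Or.inl rfl
      · exact Or.inr rfl
    constructor
    · refine Or.inr fun c' hc' => ?_
      rw [(hn c').1 hc']
      refine Or.inr fun c'' hc'' => ?_
      rw [(hn2 c'').1 hc'']
      cases t with
      | zero => exact hr2
      | succ t => exact Or.inl hr2
    · have e1 : M.Accepts x (t + 2) (cfg (.ex q) f (-1)) ↔
          ∃ c' ∈ M.next x (cfg (.ex q) f (-1)), M.Accepts x (t + 1) c' := Iff.rfl
      have e2 : M.Accepts x (t + 1) (cfg (.fin q) f (-1)) ↔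
          ∃ c' ∈ M.next x (cfg (.fin q) f (-1)), M.Accepts x t c' := Iff.rfl
      have e3 : M.Accepts x t (cfg r f (-1)) ↔ (x[addr f]? = some true ↔ q = true) := by
        rw [hr]
        split_ifs with h
        · refine ⟨fun _ => h, fun _ => ?_⟩
          cases t with
          | zero => exact rfl
          | succ t => exact trivial
        · refine ⟨fun hh => ?_, fun hh => absurd hh h⟩
          cases t with
          | zero => exact absurd hh (by intro h; cases h)
          | succ t => exact hh.elim
      rw [e1]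
      constructor
      · rintro ⟨c', h1, h2⟩
        rw [(hn c').1 h1, e2] at h2
        obtain ⟨c'', h3, h4⟩ := h2
        rw [(hn2 c'').1 h3, e3] at h4
        exact h4.symm
      · intro h
        exact ⟨_, (hn _).2 rfl, e2.2 ⟨_, (hn2 _).2 rfl, e3.2 h.symm⟩⟩
  | succ j ih =>
    intro f L q t hL hm hz ht
    obtain ⟨t, rfl⟩ : ∃ t', t = t' + 2 := ⟨t - 2, by omega⟩
    have e0 : ((j + 1 : ℕ) : ℤ) - 1 = j := by push_cast; ring
    rw [e0]
    have hj : f (j : ℤ) = .ze := hz j (Nat.lt_succ_self j)
    have hn : ∀ c', c' ∈ M.next x (cfg (.ex q) f j) ↔ ∃ r : Bool, c' = cfg (.un q r) f j := by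
      intro c'
      rw [next_iff, hj]
      constructor
      · rintro ⟨q', w, d, h1, rfl⟩
        simp only [stp, Set.mem_insert_iff, Set.mem_singleton_iff, Prod.mk.injEq] at h1
        rcases h1 with ⟨rfl, rfl, rfl⟩ | ⟨rfl, rfl, rfl⟩
        · refine ⟨false, ?_⟩
          rw [← hj, Function.update_eq_self]; simp
        · refine ⟨true, ?_⟩
          rw [← hj, Function.update_eq_self]; simp
      · rintro ⟨r, rfl⟩
        refine ⟨.un q r, .ze, 0, ?_, ?_⟩
        · cases r <;> simp [stp]
        · rw [← hj, Function.update_eq_self]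
          simp
    set f1 : ℤ → Sy := Function.update f j .on with hf1
    have hn2 : ∀ r c', c' ∈ M.next x (cfg (.un q r) f j) ↔
        c' = cfg (.ex r) f ((j : ℤ) - 1) ∨ c' = cfg (.ex (xor q r)) f1 ((j : ℤ) - 1) := by
      intro r c'
      rw [next_iff]
      constructor
      · rintro ⟨q', w, d, h1, rfl⟩
        simp only [stp, Set.mem_insert_iff, Set.mem_singleton_iff, Prod.mk.injEq] at h1
        rcases h1 with ⟨rfl, rfl, rfl⟩ | ⟨rfl, rfl, rfl⟩
        · left
          rw [← hj, Function.update_eq_self]; simp [sub_eq_add_neg]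
        · right
          simp [sub_eq_add_neg, hf1]
      · rintro (rfl | rfl)
        · refine ⟨.ex r, .ze, -1, by simp [stp], ?_⟩
          rw [← hj, Function.update_eq_self]; simp [sub_eq_add_neg]
        · exact ⟨.ex (xor q r), .on, -1, by simp [stp], by simp [sub_eq_add_neg, hf1]⟩
    have i0 := fun r => ih f L r t hL hm (fun i hi => hz i (by omega)) (by omega)
    have hL1 : ∀ i : ℕ, max L (j + 1) ≤ i → f1 i ≠ .on := by
      intro i hi
      have h1 := (le_max_left L (j + 1)).trans hi
      have h2 := (le_max_right L (j + 1)).trans hi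
      rw [hf1, Function.update_of_ne]
      · exact hL i h1
      · intro h
        have : i = j := by exact_mod_cast h
        omega
    have i1 := fun r => ih f1 (max L (j + 1)) r t hL1
      (by rw [hf1, Function.update_of_ne (by omega)]; exact hm)
      (fun i hi => by
        rw [hf1, Function.update_of_ne (by
          intro h
          have : i = j := by exact_mod_cast h
          omega)]
        exact hz i (by omega)) (by omega)
    have ha : addr f1 = addr f + 2 ^ j := addr_on f L j hL (by rw [hj]; decide)
    constructor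
    · refine Or.inr fun c' hc' => ?_
      obtain ⟨r, rfl⟩ := (hn c').1 hc'
      refine Or.inr fun c'' hc'' => ?_
      rcases (hn2 r c'').1 hc'' with rfl | rfl
      · exact (i0 r).1
      · exact (i1 _).1
    · have e1 : M.Accepts x (t + 2) (cfg (.ex q) f j) ↔
          ∃ c' ∈ M.next x (cfg (.ex q) f j), M.Accepts x (t + 1) c' := Iff.rfl
      have e2 : ∀ r, M.Accepts x (t + 1) (cfg (.un q r) f j) ↔
          ∀ c' ∈ M.next x (cfg (.un q r) f j), M.Accepts x t c' := fun r => Iff.rfl
      rw [e1, P_succ, ← ha]
      constructor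
      · rintro ⟨c', h1, h2⟩
        obtain ⟨r, rfl⟩ := (hn c').1 h1
        rw [e2] at h2
        have h3 := (i0 r).2.1 (h2 _ ((hn2 r _).2 (Or.inl rfl)))
        have h4 := (i1 (xor q r)).2.1 (h2 _ ((hn2 r _).2 (Or.inr rfl)))
        rw [← h3, ← h4]
        cases q <;> cases r <;> simp
      · intro h
        by_cases hp : P x j (addr f)
        · refine ⟨_, (hn _).2 ⟨true, rfl⟩, (e2 true).2 fun c' hc' => ?_⟩
          rcases (hn2 true c').1 hc' with rfl | rfl
          · exact (i0 true).2.2 (by simp [hp])
          · refine (i1 _).2.2 ?_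
            simp only [hp, true_iff] at h
            cases q <;> simp_all
        · refine ⟨_, (hn _).2 ⟨false, rfl⟩, (e2 false).2 fun c' hc' => ?_⟩
          rcases (hn2 false c').1 hc' with rfl | rfl
          · exact (i0 false).2.2 (by simp [hp])
          · refine (i1 _).2.2 ?_
            simp only [hp, false_iff, not_not] at h
            cases q <;> simp_all

/-- the tape in the first phase -/
def tp (j : ℕ) : ℤ → Sy := fun i => if 0 ≤ i ∧ i < j then .ze else .bl

lemma tp_neg (j : ℕ) : tp j (-1) = .bl := by simp [tp]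

lemma tp_lt (j i : ℕ) (h : i < j) : tp j i = .ze := by
  unfold tp
  rw [if_pos ⟨by omega, by exact_mod_cast h⟩]

lemma tp_ge (j i : ℕ) (h : j ≤ i) : tp j i = .bl := by
  unfold tp
  rw [if_neg]
  rintro ⟨-, h2⟩
  have : i < j := by exact_mod_cast h2
  omega

lemma tp_ne_on (j : ℕ) (i : ℤ) : tp j i ≠ .on := by
  unfold tp
  split_ifs <;> decide

lemma addr_tp (j : ℕ) : addr (tp j) = 0 := by
  rw [addr_eq (tp j) 0 fun i _ => tp_ne_on j i]
  simp

/-- the first phase -/
lemma phase_one (x : List Bool) (m : ℕ) : ∀ (j t : ℕ), x.length ≤ 2 ^ (j + m) →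
    2 * m + 1 + (2 * (j + m) + 2) ≤ t →
    M.Halts x t (cfg .chk (Function.update (tp j) j .on) j) ∧
      (M.Accepts x t (cfg .chk (Function.update (tp j) j .on) j) ↔ x ∈ PARITY) := by
  have hP : ∀ j, x.length ≤ 2 ^ j → (P x j 0 ↔ x ∈ PARITY) := by
    intro j hj
    unfold P PARITY
    rw [Set.mem_ofPred_eq]
    have h1 : ∀ (l : List Bool) (n : ℕ), l.length ≤ n →
        ((Finset.range n).filter fun y => l[0 + y]? = some true).card = l.count true := by
      intro l
      induction l with
      | nil => intro n _; simp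
      | cons a l ih =>
        intro n hn
        obtain ⟨n, rfl⟩ : ∃ n', n = n' + 1 := ⟨n - 1, by simp at hn; omega⟩
        have h2 := ih n (by simpa using hn)
        rw [List.count_cons, ← h2, Finset.card_filter, Finset.card_filter, Finset.sum_range_succ']
        congr 1
        cases a <;> simp
    rw [h1 x _ hj]
  induction m with
  | zero =>
    intro j t hx ht
    obtain ⟨t, rfl⟩ : ∃ t', t = t' + 1 := ⟨t - 1, by omega⟩
    rw [add_zero] at hx
    set f : ℤ → Sy := Function.update (tp j) j .on with hf
    have haddr : addr f = 2 ^ j := by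
      rw [hf, addr_on (tp j) 0 j (fun i _ => tp_ne_on j i) (tp_ne_on j _), addr_tp, zero_add]
    have hseen : M.seen x (cfg .chk f j) = none := by
      have : M.seen x (cfg .chk f j) = x[addr f]? := rfl
      rw [this, haddr, List.getElem?_eq_none hx]
    have hup : Function.update f j Sy.bl = tp j := by
      rw [hf, Function.update_idem, ← tp_ge j j le_rfl, Function.update_eq_self]
    have hn : ∀ c', c' ∈ M.next x (cfg .chk f j) ↔ c' = cfg (.ex true) (tp j) ((j : ℤ) - 1) := by
      intro c'
      rw [next_iff, hseen]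
      constructor
      · rintro ⟨q', w, d, h1, rfl⟩
        simp only [stp, Set.mem_singleton_iff, Prod.mk.injEq] at h1
        obtain ⟨rfl, rfl, rfl⟩ := h1
        rw [hup]
        simp [sub_eq_add_neg]
      · rintro rfl
        exact ⟨.ex true, .bl, -1, rfl, by rw [hup]; simp [sub_eq_add_neg]⟩
    have h2 := phase_two x j (tp j) 0 true t (fun i _ => tp_ne_on j i) (tp_neg j)
      (fun i hi => tp_lt j i hi) (by omega)
    constructor
    · refine Or.inr fun c' hc' => ?_
      rw [(hn c').1 hc']
      exact h2.1
    · have e1 : M.Accepts x (t + 1) (cfg .chk f j) ↔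
          ∃ c' ∈ M.next x (cfg .chk f j), M.Accepts x t c' := Iff.rfl
      rw [e1, ← hP j hx]
      rw [addr_tp] at h2
      constructor
      · rintro ⟨c', h3, h4⟩
        rw [(hn c').1 h3, h2.2] at h4
        exact h4.1 rfl
      · intro h
        exact ⟨_, (hn _).2 rfl, h2.2.2 ⟨fun _ => h, fun _ => rfl⟩⟩
  | succ m ih =>
    intro j t hx ht
    by_cases hxj : x.length ≤ 2 ^ j
    · -- reuse of the other case
      obtain ⟨t, rfl⟩ : ∃ t', t = t' + 1 := ⟨t - 1, by omega⟩
      set f : ℤ → Sy := Function.update (tp j) j .on with hf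
      have haddr : addr f = 2 ^ j := by
        rw [hf, addr_on (tp j) 0 j (fun i _ => tp_ne_on j i) (tp_ne_on j _), addr_tp, zero_add]
      have hseen : M.seen x (cfg .chk f j) = none := by
        have : M.seen x (cfg .chk f j) = x[addr f]? := rfl
        rw [this, haddr, List.getElem?_eq_none hxj]
      have hup : Function.update f j Sy.bl = tp j := by
        rw [hf, Function.update_idem, ← tp_ge j j le_rfl, Function.update_eq_self]
      have hn : ∀ c', c' ∈ M.next x (cfg .chk f j) ↔
          c' = cfg (.ex true) (tp j) ((j : ℤ) - 1) := by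
        intro c'
        rw [next_iff, hseen]
        constructor
        · rintro ⟨q', w, d, h1, rfl⟩
          simp only [stp, Set.mem_singleton_iff, Prod.mk.injEq] at h1
          obtain ⟨rfl, rfl, rfl⟩ := h1
          rw [hup]
          simp [sub_eq_add_neg]
        · rintro rfl
          exact ⟨.ex true, .bl, -1, rfl, by rw [hup]; simp [sub_eq_add_neg]⟩
      have h2 := phase_two x j (tp j) 0 true t (fun i _ => tp_ne_on j i) (tp_neg j)
        (fun i hi => tp_lt j i hi) (by omega)
      constructor
      · refine Or.inr fun c' hc' => ?_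
        rw [(hn c').1 hc']
        exact h2.1
      · have e1 : M.Accepts x (t + 1) (cfg .chk f j) ↔
            ∃ c' ∈ M.next x (cfg .chk f j), M.Accepts x t c' := Iff.rfl
        rw [e1, ← hP j hxj]
        rw [addr_tp] at h2
        constructor
        · rintro ⟨c', h3, h4⟩
          rw [(hn c').1 h3, h2.2] at h4
          exact h4.1 rfl
        · intro h
          exact ⟨_, (hn _).2 rfl, h2.2.2 ⟨fun _ => h, fun _ => rfl⟩⟩
    · obtain ⟨t, rfl⟩ : ∃ t', t = t' + 2 := ⟨t - 2, by omega⟩
      have h3 := ih (j + 1) t (by rw [show j + 1 + m = j + (m + 1) by omega]; exact hx) (by omega)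
      set f : ℤ → Sy := Function.update (tp j) j .on with hf
      set f' : ℤ → Sy := Function.update (tp (j + 1)) ((j + 1 : ℕ) : ℤ) .on with hf'
      have haddr : addr f = 2 ^ j := by
        rw [hf, addr_on (tp j) 0 j (fun i _ => tp_ne_on j i) (tp_ne_on j _), addr_tp, zero_add]
      obtain ⟨b, hseen⟩ : ∃ b, M.seen x (cfg .chk f j) = some b := by
        have : M.seen x (cfg .chk f j) = x[addr f]? := rfl
        rw [this, haddr, List.getElem?_eq_getElem (by omega)]
        exact ⟨_, rfl⟩
      have hup : Function.update f j Sy.ze = tp (j + 1) := by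
        rw [hf, Function.update_idem]
        funext i
        by_cases hi : i = j
        · subst hi
          rw [Function.update_self, tp_lt _ _ (Nat.lt_succ_self j)]
        · rw [Function.update_of_ne hi]
          unfold tp
          have : (0 ≤ i ∧ i < (j : ℤ)) ↔ (0 ≤ i ∧ i < ((j + 1 : ℕ) : ℤ)) := by
            push_cast
            constructor
            · rintro ⟨h1, h2⟩; exact ⟨h1, by omega⟩
            · rintro ⟨h1, h2⟩; exact ⟨h1, by omega⟩
          simp only [this]
      have hn : ∀ c', c' ∈ M.next x (cfg .chk f j) ↔ c' = cfg .put (tp (j + 1)) ((j : ℤ) + 1) := by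
        intro c'
        rw [next_iff, hseen]
        constructor
        · rintro ⟨q', w, d, h1, rfl⟩
          simp only [stp, Set.mem_singleton_iff, Prod.mk.injEq] at h1
          obtain ⟨rfl, rfl, rfl⟩ := h1
          rw [hup]
          simp
        · rintro rfl
          exact ⟨.put, .ze, 1, rfl, by rw [hup]; simp⟩
      have hn2 : ∀ c', c' ∈ M.next x (cfg .put (tp (j + 1)) ((j : ℤ) + 1)) ↔
          c' = cfg .chk f' ((j + 1 : ℕ) : ℤ) := by
        intro c'
        rw [next_iff]
        have e : ((j : ℤ) + 1) = ((j + 1 : ℕ) : ℤ) := by push_cast; ring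
        constructor
        · rintro ⟨q', w, d, h1, rfl⟩
          simp only [stp, Set.mem_singleton_iff, Prod.mk.injEq] at h1
          obtain ⟨rfl, rfl, rfl⟩ := h1
          rw [e]
          simp [hf']
        · rintro rfl
          refine ⟨.chk, .on, 0, rfl, ?_⟩
          rw [e]
          simp [hf']
      constructor
      · refine Or.inr fun c' hc' => ?_
        rw [(hn c').1 hc']
        refine Or.inr fun c'' hc'' => ?_
        rw [(hn2 c'').1 hc'']
        exact h3.1
      · have e1 : M.Accepts x (t + 2) (cfg .chk f j) ↔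
            ∃ c' ∈ M.next x (cfg .chk f j), M.Accepts x (t + 1) c' := Iff.rfl
        have e2 : M.Accepts x (t + 1) (cfg .put (tp (j + 1)) ((j : ℤ) + 1)) ↔
            ∃ c' ∈ M.next x (cfg .put (tp (j + 1)) ((j : ℤ) + 1)), M.Accepts x t c' := Iff.rfl
        rw [e1, ← h3.2]
        constructor
        · rintro ⟨c', h4, h5⟩
          rw [(hn c').1 h4, e2] at h5
          obtain ⟨c'', h6, h7⟩ := h5
          rw [(hn2 c'').1 h6] at h7
          exact h7
        · intro h
          exact ⟨_, (hn _).2 rfl, e2.2 ⟨_, (hn2 _).2 rfl, h⟩⟩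

end Par

open Par in
theorem parity_mem : PARITY ∈ ALOGTIME Bool := by
  refine ⟨M, 10, fun x => ?_⟩
  set l := Nat.log 2 x.length with hl
  have hx : x.length ≤ 2 ^ (0 + (l + 1)) := by
    rw [zero_add]
    exact (Nat.lt_pow_succ_log_self (by norm_num) _).le
  obtain ⟨t, ht⟩ : ∃ t, 10 * (l + 1) = t + 1 := ⟨10 * (l + 1) - 1, by omega⟩
  have h1 := phase_one x (l + 1) 0 t hx (by omega)
  have hn : ∀ c', c' ∈ M.next x M.init ↔ c' = cfg .chk (Function.update (tp 0) (0 : ℕ) .on) (0 : ℕ) := by
    intro c'
    have e : M.init = cfg .start (tp 0) 0 := by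
      unfold ATM.init cfg
      congr
      funext _ i
      unfold tp
      rw [if_neg]
      · rfl
      · rintro ⟨h1, h2⟩
        simp at h2
        omega
    rw [e, next_iff]
    constructor
    · rintro ⟨q', w, d, h1, rfl⟩
      simp only [stp, Set.mem_singleton_iff, Prod.mk.injEq] at h1
      obtain ⟨rfl, rfl, rfl⟩ := h1
      simp
    · rintro rfl
      exact ⟨.chk, .on, 0, rfl, by simp⟩
  show M.Halts x (10 * (l + 1)) M.init ∧ (x ∈ PARITY ↔ M.Accepts x (10 * (l + 1)) M.init)
  rw [ht]
  constructor
  · refine Or.inr fun c' hc' => ?_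
    rw [(hn c').1 hc']
    exact h1.1
  · have e1 : M.Accepts x (t + 1) M.init ↔ ∃ c' ∈ M.next x M.init, M.Accepts x t c' := Iff.rfl
    rw [e1, ← h1.2]
    constructor
    · intro h
      exact ⟨_, (hn _).2 rfl, h⟩
    · rintro ⟨c', h3, h4⟩
      rw [(hn c').1 h3] at h4
      exact h4

end Pool.Agent.L5helper5.WP
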