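import Mathlib

/-!
# The group: code words, the action on the tree, words and their sections
-/

set_option autoImplicit false

namespace Pool.Agent.L5helper5.WP

open Finset

/-- a vertex of a level: a vector over `ℤ/3` -/
abbrev Po := ℕ → ZMod 3

/-- a point of the boundary of the tree -/
abbrev Pt := ℕ → Po

/-- parameters -/
def U (k : ℕ) : ℕ := 2 ^ (k + 2)
def q (k : ℕ) : ℕ := 2 ^ (3 * k + 10)
/-- the rank of the rooted elementary abelian group of the level `k` -/
def m (k : ℕ) : ℕ := 2 ^ (5 * k + 14)

lemma U_pos (k : ℕ) : 0 < U k := by unfold U; positivity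
lemma q_pos (k : ℕ) : 0 < q k := by unfold q; positivity
lemma m_pos (k : ℕ) : 0 < m k := by unfold m; positivity
lemma four_le_U (k : ℕ) : 4 ≤ U k := by
  unfold U
  calc 4 = 2 ^ 2 := by norm_num
    _ ≤ 2 ^ (k + 2) := Nat.pow_le_pow_right (by norm_num) (by omega)
lemma m_eq (k : ℕ) : q k * U k * U k = m k := by
  unfold q U m
  rw [← pow_add, ← pow_add]; congr 1; ring
lemma m_lt (k : ℕ) : m (k + 1) < q k * q k := by
  unfold q m
  rw [← pow_add]
  exact Nat.pow_lt_pow_right (by norm_num) (by omega)

lemma one_le_m (k : ℕ) : 1 ≤ m k := m_pos k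

attribute [irreducible] U q m

/-- the line with the number `j` -/
def line (k j u : ℕ) : ℕ := j / q k + (j % q k) * u

lemma line_inj {k j j' u u' : ℕ} (hu : u ≠ u') (h : line k j u = line k j' u)
    (h' : line k j u' = line k j' u') : j = j' := by
  unfold line at h h'
  have e := Nat.div_add_mod j (q k)
  have e' := Nat.div_add_mod j' (q k)
  generalize j / q k = a at *
  generalize j % q k = b at *
  generalize j' / q k = a' at *
  generalize j' % q k = b' at *
  have h1 : (b : ℤ) = b' := by
    have h2 : ((b : ℤ) - b') * ((u : ℤ) - u') = 0 := by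
      have h3 : (a : ℤ) + b * u = a' + b' * u := by exact_mod_cast h
      have h4 : (a : ℤ) + b * u' = a' + b' * u' := by exact_mod_cast h'
      linear_combination h3 - h4
    rcases mul_eq_zero.1 h2 with h3 | h3
    · linarith
    · exact absurd (by exact_mod_cast (sub_eq_zero.1 h3)) hu
  have h1' : b = b' := by exact_mod_cast h1
  subst h1'
  have h2 : a = a' := by omega
  subst h2
  rw [← e, ← e']

/-- the code words -/
def cw (k j : ℕ) : Po := fun i => if i / U k = line k j (i % U k) then 1 else 0

lemma cw_at (k j v u : ℕ) (hu : u < U k) :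
    cw k j (v * U k + u) = if v = line k j u then 1 else 0 := by
  unfold cw
  rw [show (v * U k + u) / U k = v by
      rw [mul_comm, Nat.mul_add_div (U_pos k), Nat.div_eq_of_lt hu, add_zero],
    show (v * U k + u) % U k = u by
      rw [mul_comm, Nat.mul_add_mod, Nat.mod_eq_of_lt hu]]

lemma line_lt {k j u : ℕ} (hj : j < q k * q k) (hu : u < U k) : line k j u < q k * U k := by
  unfold line
  have h1 : j / q k < q k := Nat.div_lt_of_lt_mul hj
  have h2 : j % q k < q k := Nat.mod_lt _ (q_pos k)
  have h3 : j % q k * u ≤ (q k - 1) * (U k - 1) := Nat.mul_le_mul (by omega) (by omega)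
  have h4 : (q k - 1) * (U k - 1) + (q k - 1) = (q k - 1) * U k := by
    obtain ⟨U', hU⟩ : ∃ U', U k = U' + 1 := ⟨U k - 1, by omega⟩
    rw [hU, Nat.add_sub_cancel]; ring
  have h5 : (q k - 1) * U k < q k * U k := Nat.mul_lt_mul_of_pos_right (by omega) (U_pos k)
  omega

/-- the code words are supported in `[0, m k)` -/
lemma cw_supp {k j i : ℕ} (hj : j < q k * q k) (hi : m k ≤ i) : cw k j i = 0 := by
  unfold cw
  rw [if_neg]
  intro h
  have h1 := line_lt hj (Nat.mod_lt i (U_pos k))
  rw [← h, Nat.div_lt_iff_lt_mul (U_pos k), m_eq] at h1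
  omega

/-- the distance of the code words -/
lemma cw_dist {k j j' : ℕ} (S : Finset ℕ) (hS : ∀ i, i ∉ S → cw k j i = cw k j' i)
    (hc : S.card + 2 ≤ U k) : j = j' := by
  classical
  set T : Finset ℕ := (range (U k)).filter fun u => line k j u ≠ line k j' u with hT
  have h1 : T.card ≤ S.card := by
    refine Finset.card_le_card_of_injOn (fun u => line k j u * U k + u) ?_ ?_
    · intro u hu
      rw [hT, Finset.mem_coe, Finset.mem_filter, Finset.mem_range] at hu
      by_contra hcon
      have h2 := hS _ hcon
      simp only at h2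
      rw [cw_at _ _ _ _ hu.1, cw_at _ _ _ _ hu.1, if_pos rfl, if_neg hu.2] at h2
      exact one_ne_zero h2
    · intro u hu u' hu' h
      rw [hT, Finset.mem_coe, Finset.mem_filter, Finset.mem_range] at hu hu'
      have h2 : (line k j u * U k + u) % U k = (line k j u' * U k + u') % U k := by
        simp only at h
        rw [h]
      rw [mul_comm, Nat.mul_add_mod, Nat.mod_eq_of_lt hu.1, mul_comm, Nat.mul_add_mod,
        Nat.mod_eq_of_lt hu'.1] at h2
      exact h2
  have h2 : 2 ≤ ((range (U k)).filter fun u => ¬ line k j u ≠ line k j' u).card := by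
    have h3 : T.card + ((range (U k)).filter fun u => ¬ line k j u ≠ line k j' u).card = U k := by
      rw [hT, Finset.card_filter_add_card_filter_not, Finset.card_range]
    omega
  obtain ⟨u, hu, u', hu', hne⟩ := Finset.one_lt_card.1 h2
  rw [Finset.mem_filter, not_not] at hu hu'
  exact line_inj hne hu.2 hu'.2

lemma cw_inj {k j j' : ℕ} (h : cw k j = cw k j') : j = j' :=
  cw_dist ∅ (fun i _ => by rw [h]) (by have := four_le_U k; simpa using (by omega : 2 ≤ U k))

/-- the Sidon property of the code words -/
lemma cw_sidon {k j₁ j₂ j₃ j₄ : ℕ} (h : cw k j₁ - cw k j₂ = cw k j₃ - cw k j₄) (hne : j₁ ≠ j₂) :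
    j₁ = j₃ := by
  have hU := four_le_U k
  have key : ∀ u < U k, line k j₁ u ≠ line k j₂ u → line k j₁ u = line k j₃ u := by
    intro u hu hl
    have h1 := congrFun h (line k j₁ u * U k + u)
    rw [Pi.sub_apply, Pi.sub_apply, cw_at _ _ _ _ hu, cw_at _ _ _ _ hu, cw_at _ _ _ _ hu,
      cw_at _ _ _ _ hu, if_pos rfl, if_neg hl] at h1
    by_contra hcon
    rw [if_neg hcon] at h1
    split_ifs at h1 <;> revert h1 <;> decide
  have h01 : ¬ (line k j₁ 0 = line k j₂ 0 ∧ line k j₁ 1 = line k j₂ 1) := fun hh =>
    hne (line_inj (by norm_num) hh.1 hh.2)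
  have h02 : ¬ (line k j₁ 0 = line k j₂ 0 ∧ line k j₁ 2 = line k j₂ 2) := fun hh =>
    hne (line_inj (by norm_num) hh.1 hh.2)
  have h12 : ¬ (line k j₁ 1 = line k j₂ 1 ∧ line k j₁ 2 = line k j₂ 2) := fun hh =>
    hne (line_inj (by norm_num) hh.1 hh.2)
  by_cases a0 : line k j₁ 0 = line k j₂ 0
  · exact line_inj (show (1 : ℕ) ≠ 2 by norm_num) (key 1 (by omega) fun h => h01 ⟨a0, h⟩)
      (key 2 (by omega) fun h => h02 ⟨a0, h⟩)
  · by_cases a1 : line k j₁ 1 = line k j₂ 1
    · exact line_inj (show (0 : ℕ) ≠ 2 by norm_num) (key 0 (by omega) a0)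
        (key 2 (by omega) fun h => h12 ⟨a1, h⟩)
    · exact line_inj (show (0 : ℕ) ≠ 1 by norm_num) (key 0 (by omega) a0) (key 1 (by omega) a1)

open Classical in
/-- The generator whose code word is `z`. -/
noncomputable def decode (k : ℕ) (z : Po) : Option ℕ :=
  if h : ∃ g, g ≤ m (k + 1) ∧ z = cw k g then some h.choose else none

lemma decode_cw {k g : ℕ} (hg : g ≤ m (k + 1)) : decode k (cw k g) = some g := by
  unfold decode
  have h : ∃ g', g' ≤ m (k + 1) ∧ cw k g = cw k g' := ⟨g, hg, rfl⟩
  rw [dif_pos h, cw_inj h.choose_spec.2.symm]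

lemma decode_some {k g : ℕ} {z : Po} (h : decode k z = some g) : g ≤ m (k + 1) ∧ z = cw k g := by
  unfold decode at h
  split_ifs at h with h1
  rw [Option.some_inj] at h
  rw [← h]
  exact h1.choose_spec

lemma decode_iff {k g : ℕ} {z : Po} : decode k z = some g ↔ g ≤ m (k + 1) ∧ z = cw k g :=
  ⟨decode_some, fun h => by rw [h.2, decode_cw h.1]⟩

/-- The first vertex and the rest. -/
def cons (a : Po) (z : Pt) : Pt
  | 0 => a
  | n + 1 => z n

/-- the rest -/
def tl (z : Pt) : Pt := fun n => z (n + 1)

lemma cons_eta (z : Pt) : cons (z 0) (tl z) = z := by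
  funext n; cases n <;> rfl

lemma tl_cons (a : Po) (z : Pt) : tl (cons a z) = z := rfl
lemma cons_zero (a : Po) (z : Pt) : cons a z 0 = a := rfl

lemma cons_inj {a b : Po} {z w : Pt} : cons a z = cons b w ↔ a = b ∧ z = w :=
  ⟨fun h => ⟨congrFun h 0, funext fun n => congrFun h (n + 1)⟩, fun h => by rw [h.1, h.2]⟩

/-- Coordinate `n` of the image of a point under the `e`-th power of the generator `g` of the
level `k`: the generators `g + 1` add `e` to the coordinate `g` of the first vertex, the
generator `0` fixes the first vertex and acts on the rest as the generator whose code word it is. -/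
noncomputable def act : (n k g : ℕ) → ZMod 3 → Pt → Po
  | 0, _, 0, _, z => z 0
  | 0, _, g + 1, e, z => z 0 + Pi.single g e
  | n + 1, _, _ + 1, _, z => z (n + 1)
  | n + 1, k, 0, e, z => match decode k (z 0) with
    | none => z (n + 1)
    | some g => act n (k + 1) g e (tl z)

/-- the `e`-th power of the generator `g` of the level `k` -/
noncomputable def A (k g : ℕ) (e : ZMod 3) (z : Pt) : Pt := fun n => act n k g e z

/-- the action of a section -/
noncomputable def B (k : ℕ) (o : Option ℕ) (e : ZMod 3) (z : Pt) : Pt :=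
  match o with
  | none => z
  | some g => A k g e z

lemma A_succ (k g : ℕ) (e : ZMod 3) (a : Po) (z : Pt) :
    A k (g + 1) e (cons a z) = cons (a + Pi.single g e) z := by
  funext n; cases n <;> rfl

lemma A_zero (k : ℕ) (e : ZMod 3) (a : Po) (z : Pt) :
    A k 0 e (cons a z) = cons a (B (k + 1) (decode k a) e z) := by
  funext n
  cases n with
  | zero => rfl
  | succ n =>
    show act (n + 1) k 0 e (cons a z) = B (k + 1) (decode k a) e z n
    unfold act B
    rw [cons_zero]
    cases decode k a <;> rfl

lemma A_exp_zero (k g : ℕ) (z : Pt) : A k g 0 z = z := by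
  have h : ∀ n k g z, A k g 0 z n = z n := by
    intro n
    induction n with
    | zero =>
      intro k g z
      rw [← cons_eta z]
      cases g with
      | zero => rw [A_zero]; rfl
      | succ g => rw [A_succ, cons_zero, cons_zero, Pi.single_zero, add_zero]
    | succ n ih =>
      intro k g z
      rw [← cons_eta z]
      cases g with
      | zero =>
        rw [A_zero]
        show B (k + 1) (decode k (z 0)) 0 (tl z) n = tl z n
        cases decode k (z 0) with
        | none => rfl
        | some g => exact ih _ _ _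
      | succ g => rw [A_succ]; rfl
  exact funext fun n => h n k g z

lemma A_add (k g : ℕ) (e e' : ZMod 3) (z : Pt) : A k g e (A k g e' z) = A k g (e + e') z := by
  have h : ∀ n k g z, A k g e (A k g e' z) n = A k g (e + e') z n := by
    intro n
    induction n with
    | zero =>
      intro k g z
      rw [← cons_eta z]
      cases g with
      | zero => rw [A_zero, A_zero, A_zero]; rfl
      | succ g =>
        rw [A_succ, A_succ, A_succ, cons_zero, cons_zero, Pi.single_add]
        abel
    | succ n ih =>
      intro k g z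
      rw [← cons_eta z]
      cases g with
      | zero =>
        rw [A_zero, A_zero, A_zero]
        show B (k + 1) (decode k (z 0)) e (B (k + 1) (decode k (z 0)) e' (tl z)) n =
          B (k + 1) (decode k (z 0)) (e + e') (tl z) n
        cases decode k (z 0) with
        | none => rfl
        | some g => exact ih _ _ _
      | succ g => rw [A_succ, A_succ, A_succ]; rfl
  exact funext fun n => h n k g z

/-- nontrivial powers of valid generators are nontrivial -/
lemma A_ne {k g : ℕ} {e : ZMod 3} (he : e ≠ 0) : ∃ z, A k g e z ≠ z := by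
  cases g with
  | succ g =>
    refine ⟨cons 0 0, fun h => he ?_⟩
    rw [A_succ, cons_inj] at h
    have := congrFun h.1 g
    simpa using this
  | zero =>
    refine ⟨cons (cw k 1) (cons 0 0), fun h => he ?_⟩
    rw [A_zero, decode_cw (one_le_m _), cons_inj] at h
    have h2 := h.2
    unfold B at h2
    simp only at h2
    rw [A_succ (k + 1) 0, cons_inj] at h2
    have := congrFun h2.1 0
    simpa using this

/-- A word at a level: the letter `i` is the power `(W i).2` of the generator `(W i).1`. -/
abbrev Wd := ℕ → ℕ × ZMod 3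

/-- The action of the first `n` letters. -/
noncomputable def run (k : ℕ) (W : Wd) : ℕ → Pt → Pt
  | 0, z => z
  | n + 1, z => A k (W n).1 (W n).2 (run k W n z)

/-- the displacement of a letter -/
def dl (l : ℕ × ZMod 3) : Po :=
  match l with
  | (0, _) => 0
  | (g + 1, e) => Pi.single g e

/-- The displacement of the first vertex by the first `n` letters. -/
def dsp (W : Wd) (n : ℕ) : Po := ∑ i ∈ range n, dl (W i)

lemma dsp_succ (W : Wd) (n : ℕ) : dsp W (n + 1) = dsp W n + dl (W n) := Finset.sum_range_succ _ _

/-- The section of a word at the first vertex `a`. -/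
noncomputable def sec (k : ℕ) (W : Wd) (a : Po) : Wd := fun i =>
  if (W i).1 = 0 then (match decode k (a + dsp W i) with
    | none => (0, 0)
    | some g => (g, (W i).2)) else (0, 0)

lemma run_cons (k : ℕ) (W : Wd) (n : ℕ) (a : Po) (z : Pt) :
    run k W n (cons a z) = cons (a + dsp W n) (run (k + 1) (sec k W a) n z) := by
  induction n with
  | zero => unfold run dsp; simp
  | succ n ih =>
    show A k (W n).1 (W n).2 (run k W n (cons a z)) =
      cons (a + dsp W (n + 1)) (A (k + 1) (sec k W a n).1 (sec k W a n).2
        (run (k + 1) (sec k W a) n z))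
    rw [ih, dsp_succ]
    rcases hl : W n with ⟨g, e⟩
    cases g with
    | zero =>
      simp only
      rw [A_zero]
      have h1 : dl (0, e) = 0 := rfl
      rw [h1, add_zero]
      congr 1
      unfold sec
      rw [hl]
      simp only [if_true]
      cases hd : decode k (a + dsp W n) with
      | none => simp only; rw [A_exp_zero]; rfl
      | some g => rfl
    | succ g =>
      simp only
      rw [A_succ]
      have h1 : dl (g + 1, e) = Pi.single g e := rfl
      rw [h1, add_assoc]
      congr 1
      unfold sec
      rw [hl]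
      simp only [Nat.add_eq_zero_iff, one_ne_zero, and_false, if_false]
      rw [A_exp_zero]

/-- The first `n` letters act trivially. -/
def triv (k : ℕ) (W : Wd) (n : ℕ) : Prop := ∀ z, run k W n z = z

lemma triv_iff (k : ℕ) (W : Wd) (n : ℕ) :
    triv k W n ↔ dsp W n = 0 ∧ ∀ a, triv (k + 1) (sec k W a) n := by
  constructor
  · intro h
    constructor
    · have h1 := h (cons 0 0)
      rw [run_cons, cons_inj, zero_add] at h1
      exact h1.1
    · intro a z
      have h1 := h (cons a z)
      rw [run_cons, cons_inj] at h1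
      exact h1.2
  · rintro ⟨h1, h2⟩ z
    rw [← cons_eta z, run_cons, h1, add_zero, h2]

lemma run_blank (k : ℕ) (W : Wd) (n : ℕ) (h : ∀ i < n, (W i).2 = 0) (z : Pt) :
    run k W n z = z := by
  induction n with
  | zero => rfl
  | succ n ih =>
    show A k (W n).1 (W n).2 (run k W n z) = z
    rw [ih fun i hi => h i (by omega), h n (by omega), A_exp_zero]

/-- It suffices to consider the sections at finitely many vertices. -/
lemma triv_iff' (k : ℕ) (W : Wd) (n : ℕ) :
    triv k W n ↔ dsp W n = 0 ∧ ∀ i < n, ∀ g ≤ m (k + 1),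
      triv (k + 1) (sec k W (cw k g - dsp W i)) n := by
  rw [triv_iff]
  refine and_congr_right fun _ => ⟨fun h i _ g _ => h _, fun h a => ?_⟩
  by_cases hex : ∃ i < n, ∃ g, g ≤ m (k + 1) ∧ a + dsp W i = cw k g
  · obtain ⟨i, hi, g, hg, he⟩ := hex
    have := h i hi g hg
    rwa [← he, add_sub_cancel_right] at this
  · push Not at hex
    refine run_blank _ _ _ fun i hi => ?_
    unfold sec
    split_ifs with h0
    · cases hd : decode k (a + dsp W i) with
      | none => rfl
      | some g =>
        obtain ⟨h1, h2⟩ := decode_some hd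
        exact absurd h2 (hex i hi g h1)
    · rfl

/-- Words with few changes of the generator: the first `n` letters are divided into `c + 1`
intervals such that in every interval only one generator occurs. -/
def Few (c : ℕ) (W : Wd) (n : ℕ) : Prop :=
  ∃ f : ℕ → ℕ, Monotone f ∧ (∀ i < n, f i ≤ c) ∧ ∀ i < n, ∀ j < n,
    (W i).2 ≠ 0 → (W j).2 ≠ 0 → f i = f j → (W i).1 = (W j).1

lemma few_id (W : Wd) (n : ℕ) : Few n W n :=
  ⟨id, monotone_id, fun i hi => hi.le, fun i _ j _ _ _ h => by rw [show i = j from h]⟩

/-- the displacement between two letters -/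
lemma dsp_diff (W : Wd) {i j : ℕ} (hij : i ≤ j) : dsp W j = dsp W i + ∑ l ∈ Ico i j, dl (W l) := by
  unfold dsp
  rw [Finset.sum_range_add_sum_Ico _ hij]

lemma few_sec {k c n : ℕ} {W : Wd} (h : Few c W n) (a : Po) : Few (c / U k) (sec k W a) n := by
  classical
  obtain ⟨f, hf, hfc, hfg⟩ := h
  have key : ∀ i < n, ∀ j < n, i ≤ j → (sec k W a i).2 ≠ 0 → (sec k W a j).2 ≠ 0 →
      f i / U k = f j / U k → (sec k W a i).1 = (sec k W a j).1 := by
    intro i hi j hj hij h1 h2 h3
    have gen : ∀ i, (sec k W a i).2 ≠ 0 → ∃ g, (W i).1 = 0 ∧ (W i).2 ≠ 0 ∧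
        (sec k W a i).1 = g ∧ a + dsp W i = cw k g := by
      intro i hi
      unfold sec at hi ⊢
      split_ifs at hi ⊢ with h0
      · cases hd : decode k (a + dsp W i) with
        | none => rw [hd] at hi; exact absurd rfl hi
        | some g =>
          rw [hd] at hi
          exact ⟨g, h0, hi, rfl, (decode_some hd).2⟩
      · exact absurd rfl hi
    obtain ⟨g, a1, a2, a3, a4⟩ := gen i h1
    obtain ⟨g', b1, b2, b3, b4⟩ := gen j h2
    rw [a3, b3]
    -- the displacement between the two letters has small support
    have hlt : f j < f i + U k := by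
      have h4 := Nat.div_add_mod (f i) (U k)
      have h5 := Nat.div_add_mod (f j) (U k)
      have h6 := Nat.mod_lt (f j) (U_pos k)
      rw [← h3] at h5
      omega
    -- representatives of the classes
    let T : Finset ℕ := Ioo (f i) (f j)
    let rep : ℕ → ℕ := fun v => if h : ∃ l < n, (W l).2 ≠ 0 ∧ f l = v then (W h.choose).1 - 1 else 0
    let S : Finset ℕ := T.image rep
    have hSc : S.card + 2 ≤ U k := by
      have h4 : S.card ≤ T.card := Finset.card_image_le
      have h5 : T.card = f j - f i - 1 := Nat.card_Ioo _ _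
      have := four_le_U k
      omega
    refine cw_dist S (fun v hv => ?_) hSc
    rw [← a4, ← b4, dsp_diff W hij, Pi.add_apply, Pi.add_apply, Pi.add_apply, Finset.sum_apply]
    rw [Finset.sum_eq_zero, add_zero]
    intro l hl
    rw [Finset.mem_Ico] at hl
    rcases hwl : W l with ⟨g0, e⟩
    cases g0 with
    | zero => rfl
    | succ g0 =>
      show (Pi.single g0 e : Po) v = 0
      by_cases he : e = 0
      · rw [he, Pi.single_zero]; rfl
      · by_cases hv0 : v = g0
        · exfalso
          subst hv0
          apply hv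
          have hln : l < n := by omega
          have hle : (W l).2 ≠ 0 := by rw [hwl]; exact he
          have hfi : f i ≤ f l := hf hl.1
          have hfj : f l ≤ f j := hf hl.2.le
          have n1 : f i ≠ f l := fun hh => by
            have := hfg i hi l hln a2 hle hh
            rw [a1, hwl] at this
            exact absurd this (by simp)
          have n2 : f l ≠ f j := fun hh => by
            have := hfg l hln j hj hle b2 hh
            rw [b1, hwl] at this
            exact absurd this (by simp)
          refine Finset.mem_image.2 ⟨f l, Finset.mem_Ioo.2 ⟨by omega, by omega⟩, ?_⟩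
          have hex : ∃ l' < n, (W l').2 ≠ 0 ∧ f l' = f l := ⟨l, hln, hle, rfl⟩
          have hs := hex.choose_spec
          show (if h : ∃ l' < n, (W l').2 ≠ 0 ∧ f l' = f l then (W h.choose).1 - 1 else 0) = v
          rw [dif_pos hex, hfg _ hs.1 l hln hs.2.1 hle hs.2.2, hwl]
          rfl
        · exact Pi.single_eq_of_ne hv0 _
  refine ⟨fun i => f i / U k, fun i j hij => Nat.div_le_div_right (hf hij),
    fun i hi => Nat.div_le_div_right (hfc i hi), fun i hi j hj h1 h2 h3 => ?_⟩
  rcases le_total i j with hij | hij
  · exact key i hi j hj hij h1 h2 h3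
  · exact (key j hj i hi hij h2 h1 h3.symm).symm

/-- the case of one generator -/
lemma run_one (k : ℕ) (W : Wd) (n g : ℕ) (h : ∀ i < n, (W i).2 ≠ 0 → (W i).1 = g) (z : Pt) :
    run k W n z = A k g (∑ i ∈ range n, (W i).2) z := by
  induction n with
  | zero => rw [Finset.range_zero, Finset.sum_empty, A_exp_zero]; rfl
  | succ n ih =>
    show A k (W n).1 (W n).2 (run k W n z) = _
    rw [ih fun i hi => h i (by omega), Finset.sum_range_succ, add_comm, ← A_add]
    by_cases h0 : (W n).2 = 0
    · rw [h0, A_exp_zero, A_exp_zero]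
    · rw [h n (by omega) h0]

lemma triv_one {k n : ℕ} {W : Wd} (h : Few 0 W n) :
    triv k W n ↔ ∑ i ∈ range n, (W i).2 = 0 := by
  obtain ⟨f, -, hf0, hfg⟩ := h
  obtain ⟨g, hg⟩ : ∃ g, ∀ i < n, (W i).2 ≠ 0 → (W i).1 = g := by
    by_cases hex : ∃ i < n, (W i).2 ≠ 0
    · obtain ⟨j, hj, hj2⟩ := hex
      exact ⟨(W j).1, fun i hi hi2 => hfg i hi j hj hi2 hj2
        (by rw [Nat.le_zero.1 (hf0 i hi), Nat.le_zero.1 (hf0 j hj)])⟩
    · push Not at hex
      exact ⟨0, fun i hi h => absurd (hex i hi) h⟩
  constructor
  · intro h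
    by_contra hne
    obtain ⟨z, hz⟩ := A_ne (k := k) (g := g) hne
    exact hz (by rw [← run_one k W n g hg, h z])
  · intro h z
    rw [run_one k W n g hg, h, A_exp_zero]

end Pool.Agent.L5helper5.WP
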