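import Pool.Agent.L5helper5.WP.Approx
import Pool.Agent.L5helper5.WP.Words

/-!
# The word problem is approximated by polynomials of low degree
-/

set_option autoImplicit false

namespace Pool.Agent.L5helper5.WP

open Finset Pool.Agent.W856.Corner

variable {N d : ℕ} {S : Finset (Fin N → ZMod 2)}

lemma ap_letter {w : (Fin N → ZMod 2) → ℕ × ZMod 3} {b : ℕ} (hval : ∀ x, (w x).1 ≤ b)
    (h : ∀ g ≤ b, ∀ e : ZMod 3, e ≠ 0 → Ap d S fun x => if w x = (g, e) then 1 else 0)
    (ψ : ℕ × ZMod 3 → ZMod 3) (hψ : ∀ g, ψ (g, 0) = 0) : Ap d S fun x => ψ (w x) := by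
  have h1 : (fun x => ψ (w x)) = fun x => ∑ g ∈ range (b + 1), ∑ e : ZMod 3,
      ψ (g, e) * (if w x = (g, e) then 1 else 0) := by
    funext x
    rw [Finset.sum_eq_single (w x).1, Finset.sum_eq_single (w x).2]
    · simp
    · intro e _ he
      rw [if_neg, mul_zero]
      intro h2
      exact he (by rw [h2])
    · intro h2
      exact absurd (Finset.mem_univ _) h2
    · intro g _ hg
      refine Finset.sum_eq_zero fun e _ => ?_
      rw [if_neg, mul_zero]
      intro h2
      exact hg (by rw [h2])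
    · intro h2
      exact absurd (Finset.mem_range.2 (Nat.lt_succ_of_le (hval x))) h2
  rw [h1]
  refine Ap.sum _ _ fun g hg => Ap.sum _ _ fun e _ => ?_
  by_cases he : e = 0
  · refine (Ap.const 0).congr fun x _ => ?_
    rw [he, hψ, zero_mul]
  · exact Ap.smul _ (h g (by rw [Finset.mem_range] at hg; omega) e he)

lemma dl_exp_zero (g : ℕ) : dl (g, 0) = 0 := by
  cases g with
  | zero => rfl
  | succ g => exact Pi.single_zero _

lemma dl_big {l : ℕ × ZMod 3} {b v : ℕ} (h : l.1 ≤ b) (hv : b ≤ v) : dl l v = 0 := by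
  rcases l with ⟨g, e⟩
  cases g with
  | zero => rfl
  | succ g =>
    refine Pi.single_eq_of_ne ?_ _
    simp only at h
    omega

lemma dsp_big {W : Wd} {b v n i : ℕ} (h : ∀ j < n, (W j).1 ≤ b) (hi : i ≤ n) (hv : b ≤ v) :
    dsp W i v = 0 := by
  unfold dsp
  rw [Finset.sum_apply]
  refine Finset.sum_eq_zero fun j hj => dl_big (h j ?_) hv
  rw [Finset.mem_range] at hj
  omega

lemma sec_eq_iff {k : ℕ} {W : Wd} {a : Po} {i g : ℕ} {e : ZMod 3} (he : e ≠ 0)
    (hg : g ≤ m (k + 1)) : sec k W a i = (g, e) ↔ W i = (0, e) ∧ a + dsp W i = cw k g := by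
  unfold sec
  constructor
  · intro h
    split_ifs at h with h0
    · cases hd : decode k (a + dsp W i) with
      | none =>
        rw [hd] at h
        exact absurd (congrArg Prod.snd h).symm he
      | some g' =>
        rw [hd] at h
        have h1 : g' = g := congrArg Prod.fst h
        have h2 : (W i).2 = e := congrArg Prod.snd h
        exact ⟨Prod.ext h0 h2, by rw [← h1]; exact (decode_some hd).2⟩
    · exact absurd (congrArg Prod.snd h).symm he
  · rintro ⟨h1, h2⟩
    rw [h1, h2, decode_cw hg]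
    simp

lemma sec_fst (k : ℕ) (W : Wd) (a : Po) (i : ℕ) : (sec k W a i).1 ≤ m (k + 1) := by
  unfold sec
  split_ifs
  · cases hd : decode k (a + dsp W i) with
    | none => exact Nat.zero_le _
    | some g' => exact (decode_some hd).1
  · exact Nat.zero_le _

/-- the number of additional exceptional sets -/
def T (n M : ℕ) : ℕ → ℕ
  | 0 => 0
  | K + 1 => (n * M) ^ 2 + n * M * T n M K + 1

/-- `U k * U (k + 1) * ⋯` (`K` factors) -/
def Pr : ℕ → ℕ → ℕ
  | _, 0 => 1
  | k, K + 1 => U k * Pr (k + 1) K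

/-- the base of the induction -/
lemma wp_base {n k : ℕ} {W : (Fin N → ZMod 2) → Wd} (hF : ∀ x, Few 0 (W x) n)
    (hval : ∀ x, ∀ i < n, (W x i).1 ≤ m k)
    (h : ∀ i < n, ∀ g ≤ m k, ∀ e : ZMod 3, e ≠ 0 →
      Ap d S fun x => if W x i = (g, e) then 1 else 0) :
    Ap (2 * d) S fun x => (open Classical in if triv k (W x) n then (1 : ZMod 3) else 0) := by
  classical
  have h1 : Ap d S fun x => ∑ i ∈ range n, (W x i).2 :=
    Ap.sum _ _ fun i hi => ap_letter (w := fun x => W x i) (b := m k)
      (fun x => hval x i (Finset.mem_range.1 hi)) (h i (Finset.mem_range.1 hi)) Prod.snd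
      fun _ => rfl
  refine ((Ap.const 1).mono (Nat.zero_le _) (Finset.Subset.refl _) |>.sub (h1.pow 2)).congr
    fun x _ => ?_
  rw [← ite_zero]
  exact if_congr (triv_one (hF x)).symm rfl rfl

/-- One level. -/
lemma wp_step {t n k : ℕ} (ht : t ≤ N) {W : (Fin N → ZMod 2) → Wd}
    (hval : ∀ x, ∀ i < n, (W x i).1 ≤ m k)
    (h : ∀ i < n, ∀ g ≤ m k, ∀ e : ZMod 3, e ≠ 0 →
      Ap d S fun x => if W x i = (g, e) then 1 else 0) :
    ∃ S', S ⊆ S' ∧ S'.card ≤ S.card + (n * (m (k + 1) + 1)) ^ 2 * 2 ^ (N - t) ∧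
      ∀ i < n, ∀ g ≤ m (k + 1), ∀ e : ZMod 3, e ≠ 0 → ∀ i0 < n, ∀ g0 ≤ m (k + 1),
        Ap (d * (2 * t + 1)) S' fun x =>
          if sec k (W x) (cw k g0 - dsp (W x) i0) i = (g, e) then 1 else 0 := by
  classical
  have hdsp : ∀ i ≤ n, ∀ v, Ap d S fun x => dsp (W x) i v := by
    intro i hi v
    have h1 : (fun x => dsp (W x) i v) = fun x => ∑ j ∈ range i, dl (W x j) v := by
      funext x
      unfold dsp
      rw [Finset.sum_apply]
    rw [h1]
    refine Ap.sum _ _ fun j hj => ?_
    have hj' : j < n := by rw [Finset.mem_range] at hj; omega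
    exact ap_letter (w := fun x => W x j) (b := m k) (fun x => hval x j hj') (h j hj')
      (fun l => dl l v) fun g => by rw [dl_exp_zero]; rfl
  obtain ⟨S', hS, hc, hA⟩ := test_family (S := S) (d := d) ht
    (κ := (Fin n × Fin (m (k + 1) + 1)) × (Fin n × Fin (m (k + 1) + 1))) (ι := Fin (m k))
    (fun a v x => (dsp (W x) a.1.1 v - dsp (W x) a.2.1 v) - (cw k a.1.2 v - cw k a.2.2 v))
    (fun a v => ((hdsp _ a.1.1.2.le v).sub (hdsp _ a.2.1.2.le v)).sub
      ((Ap.const _).mono (Nat.zero_le _) (Finset.Subset.refl _)))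
  refine ⟨S', hS, ?_, ?_⟩
  · refine hc.trans (le_of_eq ?_)
    rw [Fintype.card_prod, Fintype.card_prod, Fintype.card_fin, Fintype.card_fin]
    ring
  · intro i hi g hg e he i0 hi0 g0 hg0
    have h1 := hA ((⟨i, hi⟩, ⟨g, Nat.lt_succ_of_le hg⟩), (⟨i0, hi0⟩, ⟨g0, Nat.lt_succ_of_le hg0⟩))
    simp only at h1
    have h2 := ((h i hi 0 (Nat.zero_le _) e he).mono le_rfl hS).mul h1
    refine (h2.mono (le_of_eq (by ring)) (Finset.Subset.refl _)).congr fun x _ => ?_
    have hiff : sec k (W x) (cw k g0 - dsp (W x) i0) i = (g, e) ↔ W x i = (0, e) ∧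
        ∀ v : Fin (m k), dsp (W x) i v - dsp (W x) i0 v - (cw k g v - cw k g0 v) = 0 := by
      rw [sec_eq_iff he hg]
      refine and_congr_right fun _ => ?_
      have h3 : cw k g0 - dsp (W x) i0 + dsp (W x) i = cw k g ↔
          dsp (W x) i - dsp (W x) i0 - (cw k g - cw k g0) = 0 := by
        rw [← sub_eq_zero]
        have : cw k g0 - dsp (W x) i0 + dsp (W x) i - cw k g =
          dsp (W x) i - dsp (W x) i0 - (cw k g - cw k g0) := by abel
        rw [this]
      rw [h3]
      constructor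
      · intro h4 v
        have := congrFun h4 v
        simpa using this
      · intro h4
        funext v
        by_cases hv : v < m k
        · exact h4 ⟨v, hv⟩
        · have hv' : m k ≤ v := not_lt.1 hv
          have hm := m_lt k
          simp only [Pi.sub_apply, Pi.zero_apply]
          rw [dsp_big (hval x) hi.le hv', dsp_big (hval x) hi0.le hv', cw_supp (by omega) hv',
            cw_supp (by omega) hv']
          simp
    by_cases hc : sec k (W x) (cw k g0 - dsp (W x) i0) i = (g, e)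
    · rw [if_pos hc, if_pos (hiff.1 hc).1, if_pos (hiff.1 hc).2, one_mul]
    · rw [if_neg hc]
      by_cases hc1 : W x i = (0, e)
      · rw [if_neg fun hc2 => hc (hiff.2 ⟨hc1, hc2⟩), mul_zero]
      · rw [if_neg hc1, zero_mul]

theorem wp_approx {t : ℕ} (ht : t ≤ N) (ht1 : 1 ≤ t) (n M K : ℕ) :
    ∀ (k c d : ℕ) (S : Finset (Fin N → ZMod 2)) (W : (Fin N → ZMod 2) → Wd),
    (∀ l < K, m (k + 1 + l) + 1 ≤ M) → c < Pr k K → (∀ x, Few c (W x) n) →
    (∀ x, ∀ i < n, (W x i).1 ≤ m k) →
    (∀ i < n, ∀ g ≤ m k, ∀ e : ZMod 3, e ≠ 0 →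
      Ap d S fun x => if W x i = (g, e) then 1 else 0) →
    ∃ S', S ⊆ S' ∧ S'.card ≤ S.card + T n M K * 2 ^ (N - t) ∧
      Ap ((2 * t * (2 * t + 1)) ^ K * (2 * d)) S' fun x =>
        (open Classical in if triv k (W x) n then (1 : ZMod 3) else 0) := by
  classical
  induction K with
  | zero =>
    intro k c d S W _ hc hF hval h
    have hc0 : c = 0 := by
      have : Pr k 0 = 1 := rfl
      omega
    subst hc0
    refine ⟨S, Finset.Subset.refl _, Nat.le_add_right _ _, ?_⟩
    rw [pow_zero, one_mul]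
    exact wp_base hF hval h
  | succ K ih =>
    intro k c d S W hM hc hF hval h
    have hM0 : m (k + 1) + 1 ≤ M := by simpa using hM 0 (Nat.succ_pos _)
    have hc' : c / U k < Pr (k + 1) K := Nat.div_lt_of_lt_mul hc
    obtain ⟨S₁, hS₁, hc₁, hA₁⟩ := wp_step ht hval h
    -- the induction hypothesis for all the sections
    have key : ∀ a : Fin n × Fin (m (k + 1) + 1), ∃ S', S₁ ⊆ S' ∧
        S'.card ≤ S₁.card + T n M K * 2 ^ (N - t) ∧
        Ap ((2 * t * (2 * t + 1)) ^ K * (2 * (d * (2 * t + 1)))) S' fun x =>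
          if triv (k + 1) (sec k (W x) (cw k a.2 - dsp (W x) a.1)) n then (1 : ZMod 3) else 0 := by
      intro a
      refine ih (k + 1) (c / U k) (d * (2 * t + 1)) S₁
        (fun x => sec k (W x) (cw k a.2 - dsp (W x) a.1)) (fun l hl => ?_) hc'
        (fun x => few_sec (hF x) _) (fun x i _ => sec_fst _ _ _ _) (fun i hi g hg e he => ?_)
      · have := hM (l + 1) (by omega)
        rwa [show k + 1 + (l + 1) = k + 1 + 1 + l by ring] at this
      · exact hA₁ i hi g hg e he a.1 a.1.2 a.2 (Nat.lt_succ_iff.1 a.2.2)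
    choose S₂ hS₂ hc₂ hA₂ using key
    let S₃ : Finset (Fin N → ZMod 2) := S₁ ∪ univ.biUnion fun a => S₂ a \ S₁
    have hsub : ∀ a, S₂ a ⊆ S₃ := by
      intro a x hx
      by_cases hx1 : x ∈ S₁
      · exact Finset.mem_union_left _ hx1
      · exact Finset.mem_union_right _ (Finset.mem_biUnion.2
          ⟨a, Finset.mem_univ _, Finset.mem_sdiff.2 ⟨hx, hx1⟩⟩)
    have hc₃ : S₃.card ≤ S₁.card + n * M * (T n M K * 2 ^ (N - t)) := by
      refine (Finset.card_union_le _ _).trans (Nat.add_le_add_left ?_ _)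
      refine Finset.card_biUnion_le.trans ?_
      have h1 : ∀ a, (S₂ a \ S₁).card ≤ T n M K * 2 ^ (N - t) := by
        intro a
        have h2 := Finset.card_sdiff_add_card_eq_card (hS₂ a)
        have h3 := hc₂ a
        omega
      refine (Finset.sum_le_sum fun a _ => h1 a).trans ?_
      rw [Finset.sum_const, smul_eq_mul, Finset.card_univ, Fintype.card_prod, Fintype.card_fin,
        Fintype.card_fin]
      exact Nat.mul_le_mul_right _ (Nat.mul_le_mul_left _ hM0)
    -- the last test
    have hdsp : ∀ v, Ap d S₃ fun x => dsp (W x) n v := by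
      intro v
      have h1 : (fun x => dsp (W x) n v) = fun x => ∑ j ∈ range n, dl (W x j) v := by
        funext x
        unfold dsp
        rw [Finset.sum_apply]
      rw [h1]
      refine Ap.sum _ _ fun j hj => ?_
      have hj' : j < n := Finset.mem_range.1 hj
      exact (ap_letter (w := fun x => W x j) (b := m k) (fun x => hval x j hj') (h j hj')
        (fun l => dl l v) fun g => by rw [dl_exp_zero]; rfl).mono le_rfl
          (hS₁.trans Finset.subset_union_left)
    set D : ℕ := (2 * t * (2 * t + 1)) ^ K * (2 * (d * (2 * t + 1))) with hD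
    have hdD : d ≤ D := by
      rw [hD]
      have h1 : 1 ≤ (2 * t * (2 * t + 1)) ^ K := Nat.one_le_pow _ _ (by positivity)
      have h2 : d * 1 ≤ d * (2 * t + 1) := Nat.mul_le_mul_left _ (by omega)
      calc d ≤ 1 * (2 * (d * (2 * t + 1))) := by omega
        _ ≤ _ := Nat.mul_le_mul_right _ h1
    obtain ⟨S₄, hS₄, hc₄, hA₄⟩ := test_family (S := S₃) (d := D) ht
      (κ := Unit) (ι := Fin (m k) ⊕ (Fin n × Fin (m (k + 1) + 1)))
      (fun _ j x => Sum.elim (fun v : Fin (m k) => dsp (W x) n v) (fun a =>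
        1 - if triv (k + 1) (sec k (W x) (cw k a.2 - dsp (W x) a.1)) n then (1 : ZMod 3) else 0) j)
      (fun _ j => by
        cases j with
        | inl v => exact (hdsp v).mono hdD (Finset.Subset.refl _)
        | inr a =>
          exact ((Ap.const 1).mono (Nat.zero_le _) (Finset.Subset.refl _)).sub
            ((hA₂ a).mono le_rfl (hsub a)))
    refine ⟨S₄, (hS₁.trans Finset.subset_union_left).trans hS₄, ?_, ?_⟩
    · rw [Fintype.card_unit, one_mul] at hc₄
      have h1 : (n * (m (k + 1) + 1)) ^ 2 * 2 ^ (N - t) ≤ (n * M) ^ 2 * 2 ^ (N - t) :=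
        Nat.mul_le_mul_right _ (Nat.pow_le_pow_left (Nat.mul_le_mul_left _ hM0) 2)
      have h2 : T n M (K + 1) * 2 ^ (N - t) = (n * M) ^ 2 * 2 ^ (N - t) +
          n * M * (T n M K * 2 ^ (N - t)) + 2 ^ (N - t) := by
        show ((n * M) ^ 2 + n * M * T n M K + 1) * 2 ^ (N - t) = _
        ring
      omega
    · refine ((hA₄ ()).mono (le_of_eq ?_) (Finset.Subset.refl _)).congr fun x _ => ?_
      · rw [hD]; ring
      · refine if_congr ?_ rfl rfl
        rw [triv_iff']
        constructor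
        · intro h1
          refine ⟨?_, fun i hi g hg => ?_⟩
          · funext v
            by_cases hv : v < m k
            · exact h1 (Sum.inl ⟨v, hv⟩)
            · exact dsp_big (hval x) le_rfl (not_lt.1 hv)
          · have h2 := h1 (Sum.inr (⟨i, hi⟩, ⟨g, Nat.lt_succ_of_le hg⟩))
            simp only [Sum.elim_inr] at h2
            by_contra h3
            rw [if_neg h3, sub_zero] at h2
            exact one_ne_zero h2
        · rintro ⟨h1, h2⟩ j
          cases j with
          | inl v => simp only [Sum.elim_inl]; rw [h1]; rfl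
          | inr a =>
            simp only [Sum.elim_inr]
            rw [if_pos (h2 a.1 a.1.2 a.2 (Nat.lt_succ_iff.1 a.2.2)), sub_self]

end Pool.Agent.L5helper5.WP
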