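import Pool.Agent.L5helper5.WP.Approx

/-!
# Parity is not approximated by polynomials of low degree over `ℤ/3` (Smolensky)
-/

set_option autoImplicit false

namespace Pool.Agent.L5helper5.WP

open Finset Pool.Agent.W856.Corner

variable {M : ℕ} {K : Type} [Field K]

lemma single_mem (i : Fin M) (g : ZMod 2 → K) :
    (fun y : Fin M → ZMod 2 => g (y i)) ∈ LK K M 1 := by
  have h : (fun y : Fin M → ZMod 2 => g (y i)) = (fun _ => g 0) + (g 1 - g 0) • mon K {i} := by
    funext y
    rw [Pi.add_apply, Pi.smul_apply, smul_eq_mul]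
    unfold mon bit
    rw [Finset.prod_singleton]
    rcases zmod2_c (y i) with h | h
    · rw [h]; simp
    · rw [h]; simp
  rw [h]
  exact Submodule.add_mem _ (LK_const _ _) (Submodule.smul_mem _ _ (mon_mem _ (by simp)))

lemma prod_mem (s : Finset (Fin M)) (g : Fin M → ZMod 2 → K) :
    (fun y : Fin M → ZMod 2 => ∏ i ∈ s, g i (y i)) ∈ LK K M s.card := by
  have h := LK_prod (K := K) (n := M) s (fun _ => 1) (fun i y => g i (y i))
    fun i _ => single_mem i (g i)
  have e : (∏ i ∈ s, fun y : Fin M → ZMod 2 => g i (y i)) =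
      fun y : Fin M → ZMod 2 => ∏ i ∈ s, g i (y i) := by
    funext y
    rw [Finset.prod_apply]
  rw [e] at h
  simpa using h

/-- the products over subsets span all functions -/
lemma span_prod (g : Fin M → ZMod 2 → K) (h01 : ∀ i, g i 0 ≠ g i 1)
    (f : (Fin M → ZMod 2) → K) :
    f ∈ Submodule.span K (Set.range fun T : Finset (Fin M) =>
      (fun y : Fin M → ZMod 2 => ∏ i ∈ T, g i (y i))) := by
  classical
  have hδ : ∀ x : Fin M → ZMod 2, (fun y : Fin M → ZMod 2 => if y = x then (1 : K) else 0) ∈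
      Submodule.span K (Set.range fun T : Finset (Fin M) =>
        (fun y : Fin M → ZMod 2 => ∏ i ∈ T, g i (y i))) := by
    intro x
    let b : Fin M → K := fun i => if x i = 1 then (g i 1 - g i 0)⁻¹ else -(g i 1 - g i 0)⁻¹
    let a : Fin M → K := fun i => (if x i = 1 then 0 else 1) - b i * g i 0
    have hfac : ∀ (y : Fin M → ZMod 2) (i : Fin M),
        b i * g i (y i) + a i = if y i = x i then 1 else 0 := by
      intro y i
      have hne : g i 1 - g i 0 ≠ 0 := sub_ne_zero.2 (h01 i).symm
      have h4 : (g i 1 - g i 0)⁻¹ * (g i 1 - g i 0) = 1 := inv_mul_cancel₀ hne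
      simp only [a, b]
      rcases zmod2_c (y i) with hy | hy <;> rcases zmod2_c (x i) with hx | hx <;>
        rw [hy, hx] <;> simp
      · linear_combination h4 * (-1 : K)
      · linear_combination h4
    have e : (fun y : Fin M → ZMod 2 => if y = x then (1 : K) else 0) =
        ∑ T ∈ (univ : Finset (Fin M)).powerset, ((∏ i ∈ T, b i) * ∏ i ∈ univ \ T, a i) •
          (fun y : Fin M → ZMod 2 => ∏ i ∈ T, g i (y i)) := by
      funext y
      have h1 : (if y = x then (1 : K) else 0) = ∏ i, (b i * g i (y i) + a i) := by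
        rw [Finset.prod_congr rfl fun i _ => hfac y i]
        by_cases hxy : y = x
        · subst hxy; simp
        · obtain ⟨i, hi⟩ := Function.ne_iff.1 hxy
          rw [if_neg hxy, Finset.prod_eq_zero (Finset.mem_univ i) (if_neg hi)]
      rw [h1, Finset.prod_add, Finset.sum_apply]
      refine Finset.sum_congr rfl fun T _ => ?_
      rw [Pi.smul_apply, smul_eq_mul, Finset.prod_mul_distrib]
      ring
    rw [e]
    exact Submodule.sum_mem _ fun T _ => Submodule.smul_mem _ _ (Submodule.subset_span ⟨T, rfl⟩)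
  have e : f = ∑ x : Fin M → ZMod 2, f x •
      (fun y : Fin M → ZMod 2 => if y = x then (1 : K) else 0) := by
    funext y
    rw [Finset.sum_apply]
    simp
  rw [e]
  exact Submodule.sum_mem _ fun x _ => Submodule.smul_mem _ _ (hδ x)

/-- the sign -/
def sg (a : ZMod 2) : ZMod 3 := if a = 1 then -1 else 1

lemma sg_sq (a : ZMod 2) : sg a * sg a = 1 := by revert a; decide

/-- the number of ones -/
def wt {N : ℕ} (x : Fin N → ZMod 2) : ℕ := (univ.filter fun i => x i = 1).card

open Classical in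
/-- parity with values in `ℤ/3` -/
noncomputable def parF {N : ℕ} (x : Fin N → ZMod 2) : ZMod 3 := if Odd (wt x) then 1 else 0

lemma prod_sg {N : ℕ} (x : Fin N → ZMod 2) : ∏ i, sg (x i) = 1 + parF x := by
  have h1 : ∏ i, sg (x i) = (-1) ^ wt x := by
    unfold sg wt
    rw [Finset.prod_ite, Finset.prod_const, Finset.prod_const_one, mul_one]
  rw [h1]
  unfold parF
  split_ifs with h
  · rw [h.neg_one_pow]; decide
  · rw [(Nat.not_odd_iff_even.1 h).neg_one_pow]; decide

theorem smolensky {N D : ℕ} {S : Finset (Fin N → ZMod 2)} (h : Ap D S parF) :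
    2 ^ N ≤ S.card + ∑ i ∈ range (N / 2 + D + 1), N.choose i := by
  classical
  obtain ⟨P, hP, h1⟩ := h
  set A : Finset (Fin N → ZMod 2) := Sᶜ with hA
  have hcard : 2 ^ N = S.card + A.card := by
    rw [hA, Finset.card_compl]
    have h2 : Fintype.card (Fin N → ZMod 2) = 2 ^ N := by simp
    have h3 := Finset.card_le_univ S
    omega
  rw [hcard]
  refine Nat.add_le_add_left ?_ _
  -- every function agrees on A with an element of LK (N/2+D)
  have hrep : ∀ f : (Fin N → ZMod 2) → ZMod 3, ∃ g ∈ LK (ZMod 3) N (N / 2 + D),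
      ∀ x ∈ A, g x = f x := by
    intro f
    have hf := span_prod (fun _ : Fin N => sg) (fun _ => by decide) f
    refine Submodule.span_induction ?_ ?_ ?_ ?_ hf
    · rintro _ ⟨T, rfl⟩
      by_cases hT : T.card ≤ N / 2
      · exact ⟨_, LK_mono (hT.trans (Nat.le_add_right _ _)) (prod_mem T fun _ => sg),
          fun _ _ => rfl⟩
      · refine ⟨fun x => (1 + P x) * ∏ i ∈ Tᶜ, sg (x i), ?_, ?_⟩
        · have h2 : (1 + P) * (fun x : Fin N → ZMod 2 => ∏ i ∈ Tᶜ, sg (x i)) ∈
              LK (ZMod 3) N (D + Tᶜ.card) :=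
            LK_mul (Submodule.add_mem _ (LK_one D) hP) (prod_mem Tᶜ fun _ => sg)
          refine LK_mono ?_ h2
          rw [Finset.card_compl, Fintype.card_fin]
          omega
        · intro x hx
          have hx' : x ∉ S := by rw [hA, Finset.mem_compl] at hx; exact hx
          show (1 + P x) * ∏ i ∈ Tᶜ, sg (x i) = ∏ i ∈ T, sg (x i)
          rw [h1 x hx', ← prod_sg, ← Finset.prod_mul_prod_compl T fun i => sg (x i), mul_assoc,
            ← Finset.prod_mul_distrib]
          rw [Finset.prod_eq_one (s := Tᶜ) fun i _ => sg_sq (x i), mul_one]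
    · exact ⟨0, Submodule.zero_mem _, fun _ _ => rfl⟩
    · rintro f1 f2 _ _ ⟨g1, hg1, e1⟩ ⟨g2, hg2, e2⟩
      exact ⟨g1 + g2, Submodule.add_mem _ hg1 hg2, fun x hx => by
        rw [Pi.add_apply, Pi.add_apply, e1 x hx, e2 x hx]⟩
    · rintro c f1 _ ⟨g1, hg1, e1⟩
      exact ⟨c • g1, Submodule.smul_mem _ _ hg1, fun x hx => by
        rw [Pi.smul_apply, Pi.smul_apply, e1 x hx]⟩
  let res : ((Fin N → ZMod 2) → ZMod 3) →ₗ[ZMod 3] (A → ZMod 3) :=
    LinearMap.funLeft (ZMod 3) (ZMod 3) (fun a : A => a.1)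
  have hsurj : Submodule.map res (LK (ZMod 3) N (N / 2 + D)) = ⊤ := by
    rw [eq_top_iff]
    intro f _
    obtain ⟨g, hg, e⟩ := hrep fun x => if hx : x ∈ A then f ⟨x, hx⟩ else 0
    refine ⟨g, hg, ?_⟩
    funext a
    show g a.1 = f a
    rw [e a.1 a.2, dif_pos a.2]
  have h2 : A.card = Module.finrank (ZMod 3) (A → ZMod 3) := by simp
  rw [h2, ← finrank_top, ← hsurj]
  exact (Submodule.finrank_map_le res _).trans (finrank_LK N (N / 2 + D))

/-- the central binomial coefficient -/
lemma centralBinom_sq_le (q : ℕ) : q.centralBinom ^ 2 * (2 * q + 1) ≤ 16 ^ q := by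
  induction q with
  | zero => simp
  | succ q ih =>
    have h1 := Nat.succ_mul_centralBinom_succ q
    have h2 : (q + 1) ^ 2 * ((q + 1).centralBinom ^ 2 * (2 * (q + 1) + 1)) ≤
        (q + 1) ^ 2 * 16 ^ (q + 1) := by
      calc (q + 1) ^ 2 * ((q + 1).centralBinom ^ 2 * (2 * (q + 1) + 1))
          = ((q + 1) * (q + 1).centralBinom) ^ 2 * (2 * q + 3) := by ring
        _ = (4 * (2 * q + 1) * (2 * q + 3)) * (q.centralBinom ^ 2 * (2 * q + 1)) := by
            rw [h1]; ring
        _ ≤ (4 * (2 * q + 1) * (2 * q + 3)) * 16 ^ q := Nat.mul_le_mul_left _ ih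
        _ ≤ (16 * (q + 1) ^ 2) * 16 ^ q := by
            refine Nat.mul_le_mul_right _ ?_
            nlinarith
        _ = (q + 1) ^ 2 * 16 ^ (q + 1) := by ring
    exact Nat.le_of_mul_le_mul_left h2 (by positivity)

lemma sum_half (q D : ℕ) : ∑ i ∈ range (q + D + 1), (2 * q).choose i ≤
    2 ^ (2 * q - 1) + (D + 1) * q.centralBinom := by
  have h1 : ∑ i ∈ range (q + D + 1), (2 * q).choose i =
      ∑ i ∈ range q, (2 * q).choose i + ∑ i ∈ range (D + 1), (2 * q).choose (q + i) := by
    rw [add_assoc, Finset.sum_range_add]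
  have h2 : ∑ i ∈ range (D + 1), (2 * q).choose (q + i) ≤ (D + 1) * q.centralBinom := by
    calc ∑ i ∈ range (D + 1), (2 * q).choose (q + i)
        ≤ ∑ _i ∈ range (D + 1), q.centralBinom :=
          Finset.sum_le_sum fun i _ => Nat.choose_le_centralBinom _ _
      _ = (D + 1) * q.centralBinom := by simp
  have h3 : ∑ i ∈ range q, (2 * q).choose i ≤ 2 ^ (2 * q - 1) := by
    rcases Nat.eq_zero_or_pos q with rfl | hq
    · simp
    · have h4 : ∑ i ∈ range (q), (2 * q).choose i + ∑ i ∈ range q, (2 * q).choose i ≤ 2 ^ (2 * q) := by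
        rw [← Nat.sum_range_choose (2 * q)]
        have h5 : ∑ i ∈ range q, (2 * q).choose i =
            ∑ i ∈ range q, (2 * q).choose (q + 1 + i) := by
          rw [← Finset.sum_range_reflect]
          refine Finset.sum_congr rfl fun i hi => ?_
          rw [Finset.mem_range] at hi
          rw [← Nat.choose_symm (show q - 1 - i ≤ 2 * q by omega)]
          congr 1
          omega
        nth_rw 2 [h5]
        have h6 : ∑ i ∈ range (2 * q + 1), (2 * q).choose i =
            ∑ i ∈ range (q + 1), (2 * q).choose i +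
              ∑ i ∈ range q, (2 * q).choose (q + 1 + i) := by
          rw [show 2 * q + 1 = (q + 1) + q by omega, Finset.sum_range_add]
        rw [h6, Finset.sum_range_succ]
        omega
      have h7 : 2 ^ (2 * q) = 2 * 2 ^ (2 * q - 1) := by
        rw [← pow_succ']; congr 1; omega
      omega
  omega

/-- The form of the lower bound which is used. -/
theorem parity_contra {q D : ℕ} (hq : 1 ≤ q) {S : Finset (Fin (2 * q) → ZMod 2)}
    (h : Ap D S parF) (hD : 16 * (D + 1) ^ 2 ≤ 2 * q) (hS : 8 * S.card ≤ 2 ^ (2 * q)) : False := by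
  have h1 := smolensky h
  rw [show 2 * q / 2 = q by omega] at h1
  have h2 := sum_half q D
  have h3 := centralBinom_sq_le q
  have h4 : 4 * ((D + 1) * q.centralBinom) < 2 ^ (2 * q) := by
    have h5 : (4 * ((D + 1) * q.centralBinom)) ^ 2 < (2 ^ (2 * q)) ^ 2 := by
      have h6 : (2 ^ (2 * q)) ^ 2 = 16 ^ q := by
        rw [← pow_mul, show 2 * q * 2 = 4 * q by ring, pow_mul]; norm_num
      rw [h6]
      have hc : 0 < q.centralBinom := Nat.centralBinom_pos q
      have : (4 * ((D + 1) * q.centralBinom)) ^ 2 = (16 * (D + 1) ^ 2) * q.centralBinom ^ 2 := by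
        ring
      rw [this]
      calc (16 * (D + 1) ^ 2) * q.centralBinom ^ 2 ≤ (2 * q) * q.centralBinom ^ 2 :=
            Nat.mul_le_mul_right _ hD
        _ < q.centralBinom ^ 2 * (2 * q + 1) := by
            rw [mul_comm]
            exact Nat.mul_lt_mul_of_pos_left (Nat.lt_succ_self _) (by positivity)
        _ ≤ 16 ^ q := h3
    exact lt_of_pow_lt_pow_left₀ 2 (by positivity) h5
  have h7 : 2 ^ (2 * q) = 2 * 2 ^ (2 * q - 1) := by
    rw [← pow_succ']; congr 1; omega
  omega

end Pool.Agent.L5helper5.WP
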