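import Pool.Agent.L5helper5.WP.Defs
import Pool.Agent.L5helper5.WP.Level
import Pool.Agent.L5helper5.WP.Smol

/-!
# Circuits with gates for the word problem are approximated by polynomials of low degree
-/

set_option autoImplicit false

namespace Pool.Agent.L5helper5.WP

open Finset Pool.Agent.W856.Corner

variable {N δ : ℕ} {S : Finset (Fin N → ZMod 2)}

open Classical in
/-- the indicator of a proposition -/
noncomputable def ip (p : Prop) : ZMod 3 := if p then 1 else 0

lemma ip_pos {p : Prop} (h : p) : ip p = 1 := if_pos h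
lemma ip_neg {p : Prop} (h : ¬ p) : ip p = 0 := if_neg h
lemma ip_congr {p q : Prop} (h : p ↔ q) : ip p = ip q := by rw [propext h]
lemma ip_not (p : Prop) : 1 - ip p = ip (¬ p) := by
  by_cases h : p
  · rw [ip_pos h, ip_neg (not_not.2 h), sub_self]
  · rw [ip_neg h, ip_pos h, sub_zero]

/-- the indicator of `true` -/
def ib (b : Bool) : ZMod 3 := if b = true then 1 else 0

lemma ib_eq (b : Bool) : ib b = ip (b = true) := by
  cases b
  · rw [ip_neg (by simp)]; rfl
  · rw [ip_pos rfl]; rfl

lemma ib_decide (p : Prop) [Decidable p] : ib (decide p) = ip p := by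
  rw [ib_eq]
  exact ip_congr decide_eq_true_iff

lemma union_all {κ X : Type*} [Fintype κ] {S : Finset X} {S' : κ → Finset X}
    (h : ∀ a, S ⊆ S' a) {B : ℕ} (hc : ∀ a, (S' a).card ≤ S.card + B) :
    ∃ S'', S ⊆ S'' ∧ (∀ a, S' a ⊆ S'') ∧ S''.card ≤ S.card + Fintype.card κ * B := by
  classical
  refine ⟨S ∪ univ.biUnion fun a => S' a \ S, Finset.subset_union_left, fun a x hx => ?_, ?_⟩
  · by_cases hx1 : x ∈ S
    · exact Finset.mem_union_left _ hx1
    · exact Finset.mem_union_right _ (Finset.mem_biUnion.2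
        ⟨a, Finset.mem_univ _, Finset.mem_sdiff.2 ⟨hx, hx1⟩⟩)
  · refine (Finset.card_union_le _ _).trans (Nat.add_le_add_left ?_ _)
    refine Finset.card_biUnion_le.trans ?_
    have h1 : ∀ a, (S' a \ S).card ≤ B := by
      intro a
      have h2 := Finset.card_sdiff_add_card_eq_card (h a)
      have h3 := hc a
      omega
    refine (Finset.sum_le_sum fun a _ => h1 a).trans ?_
    rw [Finset.sum_const, smul_eq_mul, Finset.card_univ]

lemma ap_bits {c : ℕ} {u : (Fin N → ZMod 2) → Fin c → Bool}
    (hu : ∀ j, Ap δ S fun x => ib (u x j)) (ψ : (Fin c → Bool) → ZMod 3) :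
    Ap (c * δ) S fun x => ψ (u x) := by
  classical
  have h1 : (fun x => ψ (u x)) = fun x => ∑ β : Fin c → Bool,
      ψ β * ∏ j, (if u x j = β j then (1 : ZMod 3) else 0) := by
    funext x
    rw [Finset.sum_eq_single (u x)]
    · rw [Finset.prod_eq_one (fun j _ => if_pos rfl), mul_one]
    · intro β _ hβ
      obtain ⟨j, hj⟩ : ∃ j, u x j ≠ β j := Function.ne_iff.1 (Ne.symm hβ)
      rw [Finset.prod_eq_zero (Finset.mem_univ j) (if_neg hj), mul_zero]
    · intro h
      exact absurd (Finset.mem_univ _) h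
  rw [h1]
  refine Ap.sum _ _ fun β _ => Ap.smul _ ?_
  have h2 := Ap.prod (N := N) (S := S) univ (fun _ : Fin c => δ)
    (fun j x => if u x j = β j then (1 : ZMod 3) else 0) fun j _ => by
      cases β j with
      | true => exact hu j
      | false =>
        refine (((Ap.const 1).mono (Nat.zero_le _) (Finset.Subset.refl _)).sub (hu j)).congr
          fun x _ => ?_
        cases u x j <;> simp [ib]
  simpa using h2

/-- A conjunction. -/
lemma and_test {ι : Type*} [Fintype ι] {t : ℕ} (ht : t ≤ N) (p : (Fin N → ZMod 2) → ι → Prop)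
    (h : ∀ i, Ap δ S fun x => ip (p x i)) :
    ∃ S', S ⊆ S' ∧ S'.card ≤ S.card + 2 ^ (N - t) ∧
      Ap (t * (2 * δ)) S' fun x => ip (∀ i, p x i) := by
  classical
  obtain ⟨S', hS, hc, hA⟩ := test_family (S := S) (d := δ) ht (κ := Unit) (ι := ι)
    (fun _ i x => 1 - ip (p x i))
    (fun _ i => ((Ap.const 1).mono (Nat.zero_le _) (Finset.Subset.refl _)).sub (h i))
  rw [Fintype.card_unit, one_mul] at hc
  refine ⟨S', hS, hc, (hA ()).congr fun x _ => ?_⟩
  by_cases hx : ∀ i, p x i
  · rw [ip_pos hx, if_pos fun i => by rw [ip_pos (hx i), sub_self]]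
  · rw [ip_neg hx, if_neg]
    intro h1
    refine hx fun i => ?_
    by_contra h2
    have h3 := h1 i
    rw [ip_neg h2, sub_zero] at h3
    exact one_ne_zero h3

section word

variable {A : Type}

/-- the word in the generators of the group for a word over the alphabet -/
def lw (ω : A → Wd) (L : ℕ) (u : List A) : Wd := fun i =>
  match u[i / L]? with
  | none => (0, 0)
  | some σ => ω σ (i % L)

/-- the word in the generators of the group for a query -/
def qw {s c : ℕ} (dec : (Fin c → Bool) → Option A) (ω : A → Wd) (L : ℕ)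
    (w : List (Fin c → Fin s)) (v : Fin s → Bool) : Wd := fun i =>
  match w[i / L]? with
  | none => (0, 0)
  | some b => match dec fun j => v (b j) with
    | none => (0, 0)
    | some σ => ω σ (i % L)

lemma run_add (k : ℕ) (W : Wd) (a b : ℕ) (z : Pt) :
    run k W (a + b) z = run k (fun i => W (a + i)) b (run k W a z) := by
  induction b with
  | zero => rfl
  | succ b ih =>
    show A k (W (a + b)).1 (W (a + b)).2 (run k W (a + b) z) = _
    rw [ih]
    rfl

lemma run_congr {k n : ℕ} {W W' : Wd} (h : ∀ i < n, W i = W' i) (z : Pt) :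
    run k W n z = run k W' n z := by
  induction n with
  | zero => rfl
  | succ n ih =>
    show WP.A k (W n).1 (W n).2 (run k W n z) = WP.A k (W' n).1 (W' n).2 (run k W' n z)
    rw [ih fun i hi => h i (by omega), h n (by omega)]

lemma run_lw {ψ : A → Equiv.Perm Pt} {ω : A → Wd} {L : ℕ} (hL : 0 < L)
    (hrun : ∀ σ z, run 0 (ω σ) L z = (ψ σ)⁻¹ z) (u : List A) (z : Pt) :
    run 0 (lw ω L u) (L * u.length) z = ((u.map ψ).prod)⁻¹ z := by
  induction u generalizing z with
  | nil => simp [run]
  | cons σ u ih =>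
    rw [List.length_cons, mul_add_one, add_comm, run_add, List.map_cons, List.prod_cons,
      mul_inv_rev, Equiv.Perm.mul_apply, ← ih, ← hrun]
    have h1 : run 0 (lw ω L (σ :: u)) L z = run 0 (ω σ) L z := by
      refine run_congr (fun i hi => ?_) z
      unfold lw
      rw [Nat.div_eq_of_lt hi, Nat.mod_eq_of_lt hi]
      rfl
    rw [h1]
    refine run_congr (fun i _ => ?_) _
    unfold lw
    rw [Nat.add_div_left i hL, Nat.add_mod_left]
    rfl

lemma all_some {B : Type} (f : B → Option A) (w : List B) :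
    (∃ u : List A, w.map f = u.map some) ↔ ∀ b ∈ w, f b ≠ none := by
  induction w with
  | nil => simp
  | cons b w ih =>
    constructor
    · rintro ⟨u, hu⟩
      cases u with
      | nil => simp at hu
      | cons σ u =>
        rw [List.map_cons, List.map_cons, List.cons.injEq] at hu
        intro b' hb'
        rcases List.mem_cons.1 hb' with rfl | hb'
        · rw [hu.1]; simp
        · exact ih.1 ⟨u, hu.2⟩ b' hb'
    · intro h
      obtain ⟨u, hu⟩ := ih.2 fun b' hb' => h b' (List.mem_cons_of_mem _ hb')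
      obtain ⟨σ, hσ⟩ := Option.ne_none_iff_exists'.1 (h b List.mem_cons_self)
      exact ⟨σ :: u, by rw [List.map_cons, List.map_cons, hu, hσ]⟩

lemma query_iff {ψ : A → Equiv.Perm Pt} {ω : A → Wd} {L s c : ℕ} (hL : 0 < L)
    (hrun : ∀ σ z, run 0 (ω σ) L z = (ψ σ)⁻¹ z) (dec : (Fin c → Bool) → Option A)
    (w : List (Fin c → Fin s)) (v : Fin s → Bool) :
    (∃ u : List A, w.map (fun b => dec fun j => v (b j)) = u.map some ∧ (u.map ψ).prod = 1) ↔
      (∀ b ∈ w, (dec fun j => v (b j)) ≠ none) ∧ triv 0 (qw dec ω L w v) (L * w.length) := by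
  have key : ∀ u : List A, w.map (fun b => dec fun j => v (b j)) = u.map some →
      ((u.map ψ).prod = 1 ↔ triv 0 (qw dec ω L w v) (L * w.length)) := by
    intro u hu
    have hlen : w.length = u.length := by
      have := congrArg List.length hu
      rwa [List.length_map, List.length_map] at this
    have hw : qw dec ω L w v = lw ω L u := by
      funext i
      have h1 := congrArg (fun l => l[i / L]?) hu
      simp only [List.getElem?_map] at h1
      unfold qw lw
      cases hwi : w[i / L]? with
      | none =>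
        rw [hwi] at h1
        cases hui : u[i / L]? with
        | none => rfl
        | some σ => rw [hui] at h1; simp at h1
      | some b =>
        rw [hwi] at h1
        cases hui : u[i / L]? with
        | none => rw [hui] at h1; simp at h1
        | some σ =>
          rw [hui] at h1
          simp only [Option.map_some, Option.some_inj] at h1
          simp only
          rw [h1]
    rw [hw, hlen]
    unfold triv
    constructor
    · intro h z
      rw [run_lw hL hrun, h]
      simp
    · intro h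
      have h2 : ((u.map ψ).prod)⁻¹ = 1 := by
        ext1 z
        rw [← run_lw hL hrun, h z]
        rfl
      exact inv_eq_one.1 h2
  rw [← all_some]
  constructor
  · rintro ⟨u, h1, h2⟩
    exact ⟨⟨u, h1⟩, (key u h1).1 h2⟩
  · rintro ⟨⟨u, h1⟩, h2⟩
    exact ⟨u, h1, (key u h1).2 h2⟩

end word

lemma T_mono {n n' M : ℕ} (h : n ≤ n') (K : ℕ) : T n M K ≤ T n' M K := by
  induction K with
  | zero => exact le_rfl
  | succ K ih =>
    show (n * M) ^ 2 + n * M * T n M K + 1 ≤ (n' * M) ^ 2 + n' * M * T n' M K + 1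
    gcongr

/-- the degree of a gate -/
def gd (t c K : ℕ) : ℕ := 4 * t * (c + 1) * (2 * t * (2 * t + 1)) ^ K

theorem gate_approx {A : Type} {s c t K M L : ℕ} {ψ : A → Equiv.Perm Pt} {ω : A → Wd}
    (hL : 0 < L) (hω : ∀ σ i, (ω σ i).1 ≤ m 0) (hrun : ∀ σ z, run 0 (ω σ) L z = (ψ σ)⁻¹ z)
    (dec : (Fin c → Bool) → Option A) (ht : t ≤ N) (ht1 : 1 ≤ t)
    (hM : ∀ l < K, m (0 + 1 + l) + 1 ≤ M) (hP : L * s < Pr 0 K)
    {v : (Fin N → ZMod 2) → Fin s → Bool} (hv : ∀ i, Ap δ S fun x => ib (v x i))
    (g : Gate s c) (hg : ∀ w, g = .query w → w.length ≤ s) :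
    ∃ S', S ⊆ S' ∧ S'.card ≤ S.card + (T (L * s) M K + 1) * 2 ^ (N - t) ∧
      Ap (gd t c K * δ) S' fun x => ib (g.eval dec {w | (w.map ψ).prod = 1} (v x)) := by
  classical
  have h1 : 1 ≤ (2 * t * (2 * t + 1)) ^ K := Nat.one_le_pow _ _ (by positivity)
  have h2 : 1 ≤ gd t c K := by
    unfold gd
    exact Nat.succ_le_of_lt (by positivity)
  have h3 : t * (2 * δ) ≤ gd t c K * δ := by
    unfold gd
    calc t * (2 * δ) = 2 * t * 1 * 1 * δ := by ring
      _ ≤ 4 * t * (c + 1) * (2 * t * (2 * t + 1)) ^ K * δ := by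
        gcongr
        · norm_num
        · omega
  have h4 : 2 ^ (N - t) ≤ (T (L * s) M K + 1) * 2 ^ (N - t) :=
    Nat.le_mul_of_pos_left _ (Nat.succ_pos _)
  cases g with
  | copy i =>
    exact ⟨S, Finset.Subset.refl _, Nat.le_add_right _ _,
      (hv i).mono (Nat.le_mul_of_pos_left _ h2) (Finset.Subset.refl _)⟩
  | not i =>
    refine ⟨S, Finset.Subset.refl _, Nat.le_add_right _ _, ?_⟩
    refine ((((Ap.const 1).mono (Nat.zero_le _) (Finset.Subset.refl _)).sub (hv i)).mono
      (Nat.le_mul_of_pos_left _ h2) (Finset.Subset.refl _)).congr fun x _ => ?_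
    show 1 - ib (v x i) = ib (!v x i)
    cases v x i <;> simp [ib]
  | and S₀ =>
    obtain ⟨S', hS, hc, hA⟩ := and_test (S := S) (δ := δ) ht (ι := {i // i ∈ S₀})
      (fun x i => v x i = true) (fun i => (hv i).congr fun x _ => ib_eq _)
    refine ⟨S', hS, hc.trans (by omega), (hA.mono h3 (Finset.Subset.refl _)).congr fun x _ => ?_⟩
    show _ = ib (decide (∀ i ∈ S₀, v x i = true))
    rw [ib_decide]
    exact ip_congr ⟨fun h i hi => h ⟨i, hi⟩, fun h i => h i.1 i.2⟩
  | or S₀ =>
    obtain ⟨S', hS, hc, hA⟩ := and_test (S := S) (δ := δ) ht (ι := {i // i ∈ S₀})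
      (fun x i => ¬ v x i = true)
      (fun i => (((Ap.const 1).mono (Nat.zero_le _) (Finset.Subset.refl _)).sub (hv i)).congr
        fun x _ => by rw [ib_eq, ip_not])
    refine ⟨S', hS, hc.trans (by omega), (((((Ap.const 1).mono (Nat.zero_le _)
      (Finset.Subset.refl _)).sub hA)).mono h3 (Finset.Subset.refl _)).congr fun x _ => ?_⟩
    show _ = ib (decide (∃ i ∈ S₀, v x i = true))
    rw [ib_decide, ip_not]
    refine ip_congr ?_
    rw [not_forall]
    constructor
    · rintro ⟨i, hi⟩
      exact ⟨i.1, i.2, not_not.1 hi⟩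
    · rintro ⟨i, hi, hi2⟩
      exact ⟨⟨i, hi⟩, not_not.2 hi2⟩
  | query w =>
    have hlen := hg w rfl
    have hbits : ∀ (b : Fin c → Fin s) (f : (Fin c → Bool) → ZMod 3),
        Ap (c * δ) S fun x => f fun j => v x (b j) := fun b f =>
      ap_bits (u := fun x j => v x (b j)) (fun j => hv (b j)) f
    obtain ⟨S₁, hS₁, hc₁, hA₁⟩ := wp_approx ht ht1 (L * w.length) M K 0 (L * w.length)
      (c * δ) S (fun x => qw dec ω L w (v x)) hM
      (lt_of_le_of_lt (Nat.mul_le_mul_left _ hlen) hP) (fun x => few_id _ _)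
      (fun x i _ => by
        unfold qw
        cases w[i / L]? with
        | none => exact Nat.zero_le _
        | some b =>
          simp only
          cases dec fun j => v x (b j) with
          | none => exact Nat.zero_le _
          | some σ => exact hω _ _)
      (fun i hi g _ e _ => by
        have hi2 : i / L < w.length := Nat.div_lt_of_lt_mul hi
        have hwi : w[i / L]? = some w[i / L] := List.getElem?_eq_getElem hi2
        have := hbits w[i / L] fun β => if (match dec β with
          | none => ((0, 0) : ℕ × ZMod 3)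
          | some σ => ω σ (i % L)) = (g, e) then 1 else 0
        refine this.congr fun x _ => ?_
        unfold qw
        rw [hwi])
    obtain ⟨S₂, hS₂, hc₂, hA₂⟩ := and_test (S := S₁)
      (δ := (2 * t * (2 * t + 1)) ^ K * (2 * ((c + 1) * δ))) ht (ι := Fin w.length ⊕ Unit)
      (fun x a => Sum.elim (fun i : Fin w.length => (dec fun j => v x (w[i] j)) ≠ none)
        (fun _ => triv 0 (qw dec ω L w (v x)) (L * w.length)) a)
      (fun a => by
        cases a with
        | inl i =>
          refine ((hbits w[i] fun β => ip (dec β ≠ none)).mono ?_ hS₁).congr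
            fun x _ => rfl
          calc c * δ ≤ 1 * (2 * ((c + 1) * δ)) := by nlinarith
            _ ≤ _ := Nat.mul_le_mul_right _ h1
        | inr u =>
          refine (hA₁.mono ?_ (Finset.Subset.refl _)).congr fun x _ => rfl
          gcongr
          omega)
    refine ⟨S₂, hS₁.trans hS₂, ?_, (hA₂.mono (le_of_eq ?_) (Finset.Subset.refl _)).congr
      fun x _ => ?_⟩
    · have h5 := Nat.mul_le_mul_right (2 ^ (N - t)) (T_mono (M := M)
        (Nat.mul_le_mul_left L hlen) K)
      rw [add_mul, one_mul]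
      omega
    · unfold gd
      ring
    · have hev : Gate.eval dec {w | (w.map ψ).prod = 1} (v x) (.query w) =
          decide (∃ u : List A, w.map (fun b => dec fun j => v x (b j)) = u.map some ∧
            (u.map ψ).prod = 1) := by
        unfold Gate.eval
        rfl
      rw [hev, ib_decide]
      refine ip_congr ?_
      rw [query_iff hL hrun]
      constructor
      · intro h
        refine ⟨fun b hb => ?_, h (Sum.inr ())⟩
        obtain ⟨i, hi, rfl⟩ := List.getElem_of_mem hb
        exact h (Sum.inl ⟨i, hi⟩)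
      · rintro ⟨ha, hb⟩ a
        cases a with
        | inl i => exact ha _ (List.getElem_mem _)
        | inr u => exact hb

/-- bits as Boolean values -/
def bx (x : Fin N → ZMod 2) : Fin N → Bool := fun i => decide (x i = 1)

theorem circuit_approx {A : Type} {s c d t K M L : ℕ} {ψ : A → Equiv.Perm Pt} {ω : A → Wd}
    (hL : 0 < L) (hω : ∀ σ i, (ω σ i).1 ≤ m 0) (hrun : ∀ σ z, run 0 (ω σ) L z = (ψ σ)⁻¹ z)
    (dec : (Fin c → Bool) → Option A) (ht : t ≤ N) (ht1 : 1 ≤ t)
    (hM : ∀ l < K, m (0 + 1 + l) + 1 ≤ M) (hP : L * s < Pr 0 K)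
    (C : Circuit N s c d) (hC : C.Short) (l : ℕ) (hl : l ≤ d) :
    ∃ S : Finset (Fin N → ZMod 2), S.card ≤ l * (s * ((T (L * s) M K + 1) * 2 ^ (N - t))) ∧
      ∀ i, Ap (gd t c K ^ l) S fun x => ib (C.val dec {w | (w.map ψ).prod = 1} (bx x) l i) := by
  classical
  induction l with
  | zero =>
    refine ⟨∅, by simp, fun i => ?_⟩
    show Ap 1 ∅ fun x => ib (Sum.elim (bx x) id (C.input i))
    cases C.input i with
    | inl j => exact ⟨_, single_mem j fun a => ib (decide (a = 1)), fun x _ => rfl⟩
    | inr b => exact Ap.const (ib b)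
  | succ l ih =>
    obtain ⟨S, hS, hA⟩ := ih (by omega)
    have hl' : l < d := by omega
    choose S' h1 h2 h3 using fun i => gate_approx hL hω hrun dec ht ht1 hM hP hA
      (C.gate ⟨l, hl'⟩ i) (fun w hw => hC _ _ _ hw)
    obtain ⟨S'', h4, h5, h6⟩ := union_all h1 h2
    refine ⟨S'', ?_, fun i => ?_⟩
    · rw [Fintype.card_fin] at h6
      rw [add_mul, one_mul]
      omega
    · refine ((h3 i).mono (le_of_eq ?_) (h5 i)).congr fun x _ => ?_
      · rw [pow_succ]; ring
      · show _ = ib (if h : l < d then (C.gate ⟨l, h⟩ i).eval dec _ (C.val dec _ (bx x) l)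
          else C.val dec _ (bx x) l i)
        rw [dif_pos hl']

end Pool.Agent.L5helper5.WP
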