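import Mathlib

/-!
# Alternating logarithmic time, `AC⁰` reductions, word problems

* `ATM α`: alternating multitape Turing machines with random access to the input, a word over `α`.
* `ALOGTIME α`: the languages decided by such machines in time `O(log n)`.
* `AC0Reducible L L'`: there is a non-uniform `AC⁰` Turing reduction of `L` to `L'`.
* `ALOGTIMEHard L'`: all languages in `ALOGTIME` over the binary alphabet are reducible to `L'`.
-/

set_option autoImplicit false

namespace Pool.Agent.L5helper5.WP

/-- The four kinds of states of an alternating machine. -/
inductive Mode
  | exist
  | univ
  | accept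
  | reject

/-- An alternating Turing machine with random access to its input, a word over `α`. It has `k + 1`
tapes with cells numbered by the integers; tape `0` is the index tape. In a state with
`query q = true` it sees the input symbol whose position is written on the index tape (and `none`
if there is no such position), in the other states it sees `none`. `step q s a` is the set of the
possible moves in the state `q` if the symbols `s` are scanned on the tapes and `a` is seen: the
new state, the symbols written, and for every tape the move of the head, left, right or none. -/
structure ATM (α : Type) where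
  State : Type
  Sym : Type
  finState : Finite State
  finSym : Finite Sym
  k : ℕ
  /-- the symbol that all cells contain at the beginning -/
  blank : Sym
  /-- the symbol which is counted as the digit `1` on the index tape -/
  one : Sym
  one_ne_blank : one ≠ blank
  start : State
  mode : State → Mode
  query : State → Bool
  step : State → (Fin (k + 1) → Sym) → Option α →
    Set (State × (Fin (k + 1) → Sym) × (Fin (k + 1) → SignType))

namespace ATM

variable {α : Type} (M : ATM α)

/-- A configuration: state, contents of the tapes, positions of the heads. -/
structure Cfg where
  state : M.State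
  tape : Fin (M.k + 1) → ℤ → M.Sym
  head : Fin (M.k + 1) → ℤ

/-- The initial configuration. -/
def init : M.Cfg := ⟨M.start, fun _ _ => M.blank, fun _ => 0⟩

open Classical in
/-- The number written on the index tape in binary: the cell `i ≥ 0` carries the digit of `2 ^ i`. -/
noncomputable def address (t : ℤ → M.Sym) : ℕ := ∑ᶠ i : ℕ, if t i = M.one then 2 ^ i else 0

/-- The input symbol which is seen in a configuration. -/
noncomputable def seen (x : List α) (c : M.Cfg) : Option α :=
  if M.query c.state = true then x[M.address (c.tape 0)]? else none

/-- The possible next configurations. -/
def next (x : List α) (c : M.Cfg) : Set M.Cfg :=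
  {c' | ∃ w d, (c'.state, w, d) ∈ M.step c.state (fun j => c.tape j (c.head j)) (M.seen x c) ∧
    (∀ j, c'.tape j = Function.update (c.tape j) (c.head j) (w j)) ∧
    ∀ j, c'.head j = c.head j + (d j : ℤ)}

/-- All computations starting in `c` halt after at most `t` steps. -/
def Halts (x : List α) : ℕ → M.Cfg → Prop
  | 0, c => M.mode c.state = .accept ∨ M.mode c.state = .reject
  | t + 1, c => (M.mode c.state = .accept ∨ M.mode c.state = .reject) ∨
      ∀ c' ∈ M.next x c, Halts x t c'

/-- The configuration `c` is accepting, by a computation tree of height at most `t`. -/
def Accepts (x : List α) : ℕ → M.Cfg → Prop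
  | 0, c => M.mode c.state = .accept
  | t + 1, c => match M.mode c.state with
    | .accept => True
    | .reject => False
    | .exist => ∃ c' ∈ M.next x c, Accepts x t c'
    | .univ => ∀ c' ∈ M.next x c, Accepts x t c'

/-- `M` decides the language `L` in time `T` (a function of the length of the input). -/
def Decides (L : Set (List α)) (T : ℕ → ℕ) : Prop :=
  ∀ x : List α, M.Halts x (T x.length) M.init ∧ (x ∈ L ↔ M.Accepts x (T x.length) M.init)

end ATM

/-- `ALOGTIME`: the languages decided by alternating Turing machines in time `O(log n)`. -/
def ALOGTIME (α : Type) : Set (Set (List α)) :=
  {L | ∃ (M : ATM α) (c : ℕ), M.Decides L fun n => c * (Nat.log 2 n + 1)}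

/-- A gate in a layer of a circuit. Its inputs are nodes of the preceding layer, which are numbered
by `Fin s`: a copy or the negation of a node, a conjunction or disjunction of any number of nodes,
or a query; the letters of the queried word are given by `c` nodes each. -/
inductive Gate (s c : ℕ)
  | copy (i : Fin s)
  | not (i : Fin s)
  | and (S : Finset (Fin s))
  | or (S : Finset (Fin s))
  | query (w : List (Fin c → Fin s))

open Classical in
/-- The value of a gate, if `v` are the values of the nodes of the preceding layer; `dec` decodes
blocks of `c` bits to letters; a query asks whether all blocks are decoded and the word of the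
letters is in `L'`. -/
noncomputable def Gate.eval {s c : ℕ} {A : Type} (dec : (Fin c → Bool) → Option A)
    (L' : Set (List A)) (v : Fin s → Bool) : Gate s c → Bool
  | .copy i => v i
  | .not i => !v i
  | .and S => decide (∀ i ∈ S, v i = true)
  | .or S => decide (∃ i ∈ S, v i = true)
  | .query w => decide (∃ u : List A, w.map (fun b => dec fun j => v (b j)) = u.map some ∧ u ∈ L')

/-- A circuit with `N` input bits and `d + 1` layers of `s` nodes each. The nodes of the layer `0`
are input bits or constants, the nodes of the layer `l + 1` are gates with inputs in the
layer `l`. -/
structure Circuit (N s c d : ℕ) where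
  input : Fin s → Fin N ⊕ Bool
  gate : Fin d → Fin s → Gate s c
  out : Fin s

/-- The values of the nodes of the layer `l`. -/
noncomputable def Circuit.val {N s c d : ℕ} (C : Circuit N s c d) {A : Type}
    (dec : (Fin c → Bool) → Option A) (L' : Set (List A)) (x : Fin N → Bool) :
    (l : ℕ) → Fin s → Bool
  | 0, i => Sum.elim x id (C.input i)
  | l + 1, i => if h : l < d then (C.gate ⟨l, h⟩ i).eval dec L' (C.val dec L' x l)
      else C.val dec L' x l i

/-- The output of the circuit. -/
noncomputable def Circuit.eval {N s c d : ℕ} (C : Circuit N s c d) {A : Type}
    (dec : (Fin c → Bool) → Option A) (L' : Set (List A)) (x : Fin N → Bool) : Bool :=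
  C.val dec L' x d C.out

/-- All queried words have length at most `s`. -/
def Circuit.Short {N s c d : ℕ} (C : Circuit N s c d) : Prop :=
  ∀ l i w, C.gate l i = .query w → w.length ≤ s

/-- The binary language `L` is reducible to the language `L'` over the alphabet `A` by a
non-uniform `AC⁰` Turing reduction: for every `N` there is a circuit of constant depth and of
polynomial size, with gates for `L'`, which decides `L` on the words of length `N`. -/
def AC0Reducible {A : Type} (L : Set (List Bool)) (L' : Set (List A)) : Prop :=
  ∃ (c : ℕ) (dec : (Fin c → Bool) → Option A) (d e : ℕ), ∀ N : ℕ,
    ∃ (s : ℕ) (C : Circuit N s c d), s ≤ N ^ e + e ∧ C.Short ∧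
      ∀ x : Fin N → Bool, List.ofFn x ∈ L ↔ C.eval dec L' x = true

/-- `L'` is hard for `ALOGTIME` under non-uniform `AC⁰` Turing reductions. (A language which is hard
under `DLOGTIME`-uniform `AC⁰` many-one or Turing reductions has this property.) -/
def ALOGTIMEHard {A : Type} (L' : Set (List A)) : Prop :=
  ∀ L ∈ ALOGTIME Bool, AC0Reducible L L'

/-- The words with an odd number of ones. -/
def PARITY : Set (List Bool) := {x | Odd (x.count true)}

end Pool.Agent.L5helper5.WP
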