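import Pool.Agent.L5helper5.WP.Circ

/-!
# Parity is not reducible to the word problem
-/

set_option autoImplicit false

namespace Pool.Agent.L5helper5.WP

open Finset Pool.Agent.W856.Corner

lemma T_bound (n M K : ℕ) : T n M K + 1 ≤ 2 ^ K * (n * M + 2) ^ (K + 1) := by
  induction K with
  | zero => simp [T]
  | succ K ih =>
    have h1 : n * M + 2 ≤ 2 ^ K * (n * M + 2) ^ (K + 1) := by
      calc n * M + 2 = 1 * (n * M + 2) ^ 1 := by ring
        _ ≤ 2 ^ K * (n * M + 2) ^ (K + 1) := by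
          gcongr
          · exact Nat.one_le_two_pow
          · omega
          · omega
    calc T n M (K + 1) + 1 = (n * M) ^ 2 + n * M * T n M K + 1 + 1 := rfl
      _ ≤ (n * M + 2) * ((n * M + 2) + T n M K) := by nlinarith
      _ ≤ (n * M + 2) * (2 ^ K * (n * M + 2) ^ (K + 1) + 2 ^ K * (n * M + 2) ^ (K + 1)) := by
        refine Nat.mul_le_mul_left _ (Nat.add_le_add h1 (by omega))
      _ = 2 ^ (K + 1) * (n * M + 2) ^ (K + 1 + 1) := by ring

lemma Pr_sq (K : ℕ) : ∀ k, Pr k K ^ 2 = 2 ^ (K * (2 * k + K + 3)) := by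
  induction K with
  | zero => intro k; simp [Pr]
  | succ K ih =>
    intro k
    show (U k * Pr (k + 1) K) ^ 2 = _
    rw [mul_pow, ih]
    unfold U
    rw [← pow_mul, ← pow_add]
    congr 1
    ring

lemma sq_le_two_pow (n : ℕ) (h : 4 ≤ n) : n ^ 2 ≤ 2 ^ n := by
  induction n, h using Nat.le_induction with
  | base => norm_num
  | succ n hn ih =>
    rw [pow_succ 2 n]
    nlinarith

lemma s_bound {e h s : ℕ} (hs : s ≤ (2 ^ h) ^ e + e) : s ≤ 2 ^ ((h + 1) * e) := by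
  have h1 : e + 1 ≤ 2 ^ e := Nat.lt_two_pow_self
  have h2 : 1 ≤ (2 ^ h) ^ e := Nat.one_le_pow _ _ (by positivity)
  calc s ≤ (2 ^ h) ^ e + e := hs
    _ ≤ (2 ^ h) ^ e * (e + 1) := by nlinarith
    _ ≤ (2 ^ h) ^ e * 2 ^ e := Nat.mul_le_mul_left _ h1
    _ = 2 ^ ((h + 1) * e) := by rw [← pow_mul, ← pow_add]; congr 1; ring

lemma m_bound {K l : ℕ} (hl : l < K) : m (0 + 1 + l) + 1 ≤ 2 ^ (5 * K + 15) := by
  have h1 : m (0 + 1 + l) ≤ 2 ^ (5 * K + 14) := by
    unfold m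
    exact Nat.pow_le_pow_right (by norm_num) (by omega)
  have h2 : 2 ^ (5 * K + 15) = 2 ^ (5 * K + 14) * 2 := pow_succ _ _
  have h3 : 1 ≤ 2 ^ (5 * K + 14) := Nat.one_le_two_pow
  omega

/-- the degree -/
lemma gd_bound (τ c K : ℕ) : gd (2 ^ τ) c K ≤ 2 ^ (2 + τ + c + (2 * τ + 3) * K) := by
  unfold gd
  have h1 : c + 1 ≤ 2 ^ c := Nat.lt_two_pow_self
  have h2 : 2 * 2 ^ τ * (2 * 2 ^ τ + 1) ≤ 2 ^ (2 * τ + 3) := by
    have h3 : 2 ^ (2 * τ + 3) = 8 * (2 ^ τ * 2 ^ τ) := by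
      rw [← pow_add, pow_succ, pow_succ, pow_succ]
      have : 2 * τ = τ + τ := by ring
      rw [this]
      ring
    have h4 : 1 ≤ 2 ^ τ := Nat.one_le_two_pow
    rw [h3]
    nlinarith
  calc 4 * 2 ^ τ * (c + 1) * (2 * 2 ^ τ * (2 * 2 ^ τ + 1)) ^ K
      ≤ 4 * 2 ^ τ * 2 ^ c * (2 ^ (2 * τ + 3)) ^ K := by gcongr
    _ = 2 ^ (2 + τ + c + (2 * τ + 3) * K) := by
      rw [← pow_mul, pow_add, pow_add, pow_add]
      norm_num

lemma numerics (L c d e : ℕ) : ∃ h t K : ℕ, 1 ≤ h ∧ t ≤ 2 ^ h ∧ 1 ≤ t ∧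
    (∀ s ≤ (2 ^ h) ^ e + e, L * s < Pr 0 K ∧
      8 * (d * (s * (T (L * s) (2 ^ (5 * K + 15)) K + 1))) ≤ 2 ^ t) ∧
    16 * (gd t c K ^ d + 1) ^ 2 ≤ 2 ^ h := by
  obtain ⟨A, hA⟩ : ∃ A, A = 2 * (L + e + 1) := ⟨_, rfl⟩
  obtain ⟨C, hC⟩ : ∃ C, C = 3 + d + 2 * e + A + (A + 1) * (L + 2 * e + 5 * A + 17) := ⟨_, rfl⟩
  obtain ⟨E, hE⟩ : ∃ E, E = 6 + 2 * d * (5 + C + c + (2 * C + 9) * A) := ⟨_, rfl⟩
  obtain ⟨ρ, hρ⟩ : ∃ ρ, ρ = E + C + 4 := ⟨_, rfl⟩
  obtain ⟨r, hr⟩ : ∃ r, r = 2 ^ ρ := ⟨_, rfl⟩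
  obtain ⟨K, hK⟩ : ∃ K, K = A * r := ⟨_, rfl⟩
  obtain ⟨h, hh⟩ : ∃ h, h = r ^ 2 := ⟨_, rfl⟩
  obtain ⟨τ, hτ⟩ : ∃ τ, τ = C + 3 * ρ := ⟨_, rfl⟩
  have hr1 : 1 ≤ r := by rw [hr]; exact Nat.one_le_two_pow
  have hρr : ρ ^ 2 ≤ r := by rw [hr]; exact sq_le_two_pow ρ (by omega)
  have hh1 : 1 ≤ h := by rw [hh]; exact Nat.one_le_pow _ _ hr1
  have hrh : r ≤ h := by rw [hh]; exact Nat.le_self_pow (by norm_num) r
  have ht : 2 ^ τ ≤ 2 ^ h := by
    refine Nat.pow_le_pow_right (by norm_num) ?_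
    have h1 : τ ≤ ρ ^ 2 := by
      rw [hτ, pow_two]
      calc C + 3 * ρ ≤ 4 * ρ := by omega
        _ ≤ ρ * ρ := Nat.mul_le_mul_right _ (by omega)
    omega
  have ht3 : 2 ^ τ = 2 ^ C * r ^ 3 := by
    rw [hτ, hr, pow_add, ← pow_mul]
    congr 2
    ring
  refine ⟨h, 2 ^ τ, K, hh1, ht, Nat.one_le_two_pow, fun s hs => ⟨?_, ?_⟩, ?_⟩
  · -- the number of the levels
    have hs' := s_bound hs
    have hL : L ≤ 2 ^ L := Nat.lt_two_pow_self.le
    have h1 : L * s ≤ 2 ^ (L + (h + 1) * e) := by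
      rw [pow_add]
      exact Nat.mul_le_mul hL hs'
    have h2 : (L * s) ^ 2 < Pr 0 K ^ 2 := by
      rw [Pr_sq]
      calc (L * s) ^ 2 ≤ (2 ^ (L + (h + 1) * e)) ^ 2 := Nat.pow_le_pow_left h1 2
        _ = 2 ^ ((L + (h + 1) * e) * 2) := by rw [← pow_mul]
        _ < 2 ^ (K * (2 * 0 + K + 3)) := by
          refine Nat.pow_lt_pow_right (by norm_num) ?_
          have h3 : (L + e + 1) ≤ (L + e + 1) ^ 2 := Nat.le_self_pow (by norm_num) _
          have h4 : 4 * (L + e + 1) * h ≤ K * K := by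
            rw [hK, hA, hh]
            calc 4 * (L + e + 1) * r ^ 2 ≤ 4 * (L + e + 1) ^ 2 * r ^ 2 := by gcongr
              _ = 2 * (L + e + 1) * r * (2 * (L + e + 1) * r) := by ring
          have h5 : 1 ≤ K := by
            rw [hK, hA]
            nlinarith
          nlinarith
    exact lt_of_pow_lt_pow_left₀ 2 (by positivity) h2
  · have hs' := s_bound hs
    have hL : L ≤ 2 ^ L := Nat.lt_two_pow_self.le
    have hd : d ≤ 2 ^ d := Nat.lt_two_pow_self.le
    have hLs : L * s ≤ 2 ^ (L + (h + 1) * e) := by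
      rw [pow_add]
      exact Nat.mul_le_mul hL hs'
    have h1 : L * s * 2 ^ (5 * K + 15) + 2 ≤ 2 ^ (L + (h + 1) * e + 5 * K + 17) := by
      have h2 : L * s * 2 ^ (5 * K + 15) ≤ 2 ^ (L + (h + 1) * e + 5 * K + 15) := by
        rw [show L + (h + 1) * e + 5 * K + 15 = L + (h + 1) * e + (5 * K + 15) by ring,
          pow_add 2 (L + (h + 1) * e)]
        exact Nat.mul_le_mul_right _ hLs
      have h3 : 2 ^ (L + (h + 1) * e + 5 * K + 17) = 2 ^ (L + (h + 1) * e + 5 * K + 15) * 4 := by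
        rw [pow_succ, pow_succ _ (L + (h + 1) * e + 5 * K + 15)]
        ring
      have h4 : 1 ≤ 2 ^ (L + (h + 1) * e + 5 * K + 15) := Nat.one_le_two_pow
      omega
    have h2 := T_bound (L * s) (2 ^ (5 * K + 15)) K
    calc 8 * (d * (s * (T (L * s) (2 ^ (5 * K + 15)) K + 1)))
        ≤ 2 ^ 3 * (2 ^ d * (2 ^ ((h + 1) * e) *
          (2 ^ K * (2 ^ (L + (h + 1) * e + 5 * K + 17)) ^ (K + 1)))) := by
          refine Nat.mul_le_mul (by norm_num) (Nat.mul_le_mul hd (Nat.mul_le_mul hs'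
            (h2.trans ?_)))
          gcongr
      _ = 2 ^ (3 + d + (h + 1) * e + K + (L + (h + 1) * e + 5 * K + 17) * (K + 1)) := by
          rw [← pow_mul, ← pow_add, ← pow_add, ← pow_add, ← pow_add]
          congr 1
          ring
      _ ≤ 2 ^ 2 ^ τ := by
          refine Nat.pow_le_pow_right (by norm_num) ?_
          have h3 : 1 ≤ r ^ 2 := Nat.one_le_pow _ _ hr1
          have h4 : 1 ≤ r ^ 3 := Nat.one_le_pow _ _ hr1
          have h5 : r ≤ r ^ 2 := Nat.le_self_pow (by norm_num) r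
          have h6 : r ^ 2 ≤ r ^ 3 := Nat.pow_le_pow_right hr1 (by norm_num)
          have h7 : (h + 1) * e ≤ 2 * e * r ^ 2 := by
            have g1 : (h + 1) * e = r ^ 2 * e + e := by rw [hh]; ring
            have g2 : e ≤ e * r ^ 2 := Nat.le_mul_of_pos_right _ h3
            have g3 : 2 * e * r ^ 2 = r ^ 2 * e + e * r ^ 2 := by ring
            rw [g1, g3]
            exact Nat.add_le_add_left g2 _
          have h8 : K + 1 ≤ (A + 1) * r := by
            rw [hK, add_mul, one_mul]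
            exact Nat.add_le_add_left hr1 _
          have h9 : L + (h + 1) * e + 5 * K + 17 ≤ (L + 2 * e + 5 * A + 17) * r ^ 2 := by
            have g1 : 5 * K ≤ 5 * A * r ^ 2 := by
              rw [hK, ← mul_assoc]; exact Nat.mul_le_mul_left _ h5
            have g2 : L ≤ L * r ^ 2 := Nat.le_mul_of_pos_right _ h3
            have g3 : (L + 2 * e + 5 * A + 17) * r ^ 2 =
              L * r ^ 2 + 2 * e * r ^ 2 + 5 * A * r ^ 2 + 17 * r ^ 2 := by ring
            rw [g3]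
            omega
          have h10 : (L + (h + 1) * e + 5 * K + 17) * (K + 1) ≤
              (A + 1) * (L + 2 * e + 5 * A + 17) * r ^ 3 := by
            calc _ ≤ (L + 2 * e + 5 * A + 17) * r ^ 2 * ((A + 1) * r) := Nat.mul_le_mul h9 h8
              _ = _ := by ring
          have h11 : C < 2 ^ C := Nat.lt_two_pow_self
          have h12 : C * r ^ 3 ≤ 2 ^ C * r ^ 3 := Nat.mul_le_mul_right _ h11.le
          rw [ht3]
          refine le_trans ?_ h12
          have h13 : K ≤ A * r ^ 3 := by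
            rw [hK]
            exact Nat.mul_le_mul_left _ (h5.trans h6)
          have h14 : 2 * e * r ^ 2 ≤ 2 * e * r ^ 3 := Nat.mul_le_mul_left _ h6
          have h15 : 3 + d ≤ (3 + d) * r ^ 3 := Nat.le_mul_of_pos_right _ h4
          calc 3 + d + (h + 1) * e + K + (L + (h + 1) * e + 5 * K + 17) * (K + 1)
              ≤ (3 + d) * r ^ 3 + 2 * e * r ^ 3 + A * r ^ 3 +
                (A + 1) * (L + 2 * e + 5 * A + 17) * r ^ 3 := by omega
            _ = C * r ^ 3 := by rw [hC]; ring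
  · have h1 : gd (2 ^ τ) c K ^ d ≤ 2 ^ ((2 + τ + c + (2 * τ + 3) * K) * d) := by
      rw [pow_mul]
      exact Nat.pow_le_pow_left (gd_bound τ c K) d
    have h2 : gd (2 ^ τ) c K ^ d + 1 ≤ 2 ^ ((2 + τ + c + (2 * τ + 3) * K) * d + 1) := by
      rw [pow_succ]
      have : 1 ≤ 2 ^ ((2 + τ + c + (2 * τ + 3) * K) * d) := Nat.one_le_two_pow
      omega
    calc 16 * (gd (2 ^ τ) c K ^ d + 1) ^ 2
        ≤ 2 ^ 4 * (2 ^ ((2 + τ + c + (2 * τ + 3) * K) * d + 1)) ^ 2 := by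
          refine Nat.mul_le_mul (by norm_num) (Nat.pow_le_pow_left h2 2)
      _ = 2 ^ (6 + 2 * d * (2 + τ + c + (2 * τ + 3) * K)) := by
          rw [← pow_mul, ← pow_add]
          congr 1
          ring
      _ ≤ 2 ^ h := by
          refine Nat.pow_le_pow_right (by norm_num) ?_
          have hρ1 : 1 ≤ ρ := by omega
          have hρr1 : 1 ≤ ρ * r := Nat.mul_pos hρ1 hr1
          have h3 : 2 + τ + c ≤ (5 + C + c) * (ρ * r) := by
            have g1 : ρ ≤ ρ * r := Nat.le_mul_of_pos_right _ hr1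
            have g2 : C ≤ C * (ρ * r) := Nat.le_mul_of_pos_right _ hρr1
            have g3 : c ≤ c * (ρ * r) := Nat.le_mul_of_pos_right _ hρr1
            rw [hτ, add_mul, add_mul]
            omega
          have h4 : (2 * τ + 3) * K ≤ (2 * C + 9) * A * (ρ * r) := by
            have h5 : 2 * τ + 3 ≤ (2 * C + 9) * ρ := by
              have g2 : 2 * C ≤ 2 * C * ρ := Nat.le_mul_of_pos_right _ hρ1
              rw [hτ, add_mul]
              omega
            calc (2 * τ + 3) * K ≤ (2 * C + 9) * ρ * (A * r) := by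
                  rw [hK]; exact Nat.mul_le_mul_right _ h5
              _ = _ := by ring
          have h5 : 2 + τ + c + (2 * τ + 3) * K ≤ (5 + C + c + (2 * C + 9) * A) * (ρ * r) := by
            rw [add_mul (5 + C + c)]
            exact Nat.add_le_add h3 h4
          calc 6 + 2 * d * (2 + τ + c + (2 * τ + 3) * K)
              ≤ 6 * (ρ * r) + 2 * d * ((5 + C + c + (2 * C + 9) * A) * (ρ * r)) :=
                Nat.add_le_add (Nat.le_mul_of_pos_right _ hρr1) (Nat.mul_le_mul_left _ h5)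
            _ = E * ρ * r := by rw [hE]; ring
            _ ≤ ρ ^ 2 * r := by
                refine Nat.mul_le_mul_right _ ?_
                rw [pow_two]
                exact Nat.mul_le_mul_right _ (by omega)
            _ ≤ r * r := Nat.mul_le_mul_right _ hρr
            _ = h := by rw [hh]; ring

lemma count_ofFn {N : ℕ} (x : Fin N → ZMod 2) : (List.ofFn (bx x)).count true = wt x := by
  have h1 : ∀ l : List Bool, l.count true = (l.map fun b => if b = true then 1 else 0).sum := by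
    intro l
    induction l with
    | nil => rfl
    | cons b l ih =>
      rw [List.count_cons, List.map_cons, List.sum_cons, ih]
      cases b <;> simp [add_comm]
  rw [h1, List.map_ofFn, List.sum_ofFn, wt, Finset.card_filter]
  refine Finset.sum_congr rfl fun i _ => ?_
  simp [bx]

theorem no_reduction {A : Type} {L : ℕ} {ψ : A → Equiv.Perm Pt} {ω : A → Wd}
    (hL : 0 < L) (hω : ∀ σ i, (ω σ i).1 ≤ m 0) (hrun : ∀ σ z, run 0 (ω σ) L z = (ψ σ)⁻¹ z) :
    ¬ AC0Reducible PARITY {w : List A | (w.map ψ).prod = 1} := by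
  rintro ⟨c, dec, d, e, hred⟩
  obtain ⟨h, t, K, hh, ht, ht1, hs, hgd⟩ := numerics L c d e
  obtain ⟨q, hq⟩ : ∃ q, 2 ^ h = 2 * q := ⟨2 ^ (h - 1), by rw [← pow_succ']; congr 1; omega⟩
  have hq1 : 1 ≤ q := by
    have : 0 < 2 ^ h := by positivity
    omega
  obtain ⟨s, C, hsN, hC, hx⟩ := hred (2 * q)
  rw [← hq] at hsN
  obtain ⟨hP, hT⟩ := hs s hsN
  rw [hq] at ht hgd
  obtain ⟨S, hS, hA⟩ := circuit_approx (t := t) (K := K) (M := 2 ^ (5 * K + 15)) hL hω hrun dec ht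
    ht1 (fun l hl => m_bound hl) hP C hC d le_rfl
  refine parity_contra hq1 (S := S) (D := gd t c K ^ d) ((hA C.out).congr fun x _ => ?_) hgd ?_
  · have h1 := hx (bx x)
    unfold PARITY at h1
    rw [Set.mem_ofPred_eq, count_ofFn] at h1
    unfold parF
    rw [ib_eq]
    by_cases hodd : Odd (wt x)
    · rw [if_pos hodd]; exact ip_pos (h1.1 hodd)
    · rw [if_neg hodd]; exact ip_neg fun h2 => hodd (h1.2 h2)
  · have h1 : 2 ^ (2 * q) = 2 ^ t * 2 ^ (2 * q - t) := by rw [← pow_add]; congr 1; omega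
    rw [h1]
    calc 8 * S.card ≤ 8 * (d * (s * ((T (L * s) (2 ^ (5 * K + 15)) K + 1) *
          2 ^ (2 * q - t)))) := Nat.mul_le_mul_left _ hS
      _ = 8 * (d * (s * (T (L * s) (2 ^ (5 * K + 15)) K + 1))) * 2 ^ (2 * q - t) := by ring
      _ ≤ _ := Nat.mul_le_mul_right _ hT

end Pool.Agent.L5helper5.WP
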