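import Pool.Agent.L5helper5.WP.Words

/-!
# The groups are not solvable
-/

set_option autoImplicit false

namespace Pool.Agent.L5helper5.WP

open Finset
open scoped commutatorElement

/-- the powers of the generators as permutations -/
noncomputable def gen (k g : ℕ) (e : ZMod 3) : Equiv.Perm Pt where
  toFun := A k g e
  invFun := A k g (-e)
  left_inv z := by rw [A_add, neg_add_cancel, A_exp_zero]
  right_inv z := by rw [A_add, add_neg_cancel, A_exp_zero]

lemma gen_apply (k g : ℕ) (e : ZMod 3) (z : Pt) : gen k g e z = A k g e z := rfl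

lemma gen_add (k g : ℕ) (e e' : ZMod 3) : gen k g (e + e') = gen k g e * gen k g e' := by
  ext1 z
  rw [Equiv.Perm.mul_apply, gen_apply, gen_apply, gen_apply, A_add]

lemma gen_zero (k g : ℕ) : gen k g 0 = 1 := by
  ext1 z
  rw [gen_apply, A_exp_zero]
  rfl

lemma gen_neg (k g : ℕ) (e : ZMod 3) : gen k g (-e) = (gen k g e)⁻¹ := by
  rw [eq_inv_iff_mul_eq_one, ← gen_add, neg_add_cancel, gen_zero]

/-- The group of the level `k`. -/
def Gk (k : ℕ) : Subgroup (Equiv.Perm Pt) := Subgroup.closure {γ | ∃ g ≤ m k, γ = gen k g 1}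

lemma gen_mem {k g : ℕ} (hg : g ≤ m k) (e : ZMod 3) : gen k g e ∈ Gk k := by
  have h1 : gen k g 1 ∈ Gk k := Subgroup.subset_closure ⟨g, hg, rfl⟩
  have h : ∀ n : ℕ, gen k g (n : ZMod 3) ∈ Gk k := by
    intro n
    induction n with
    | zero => rw [Nat.cast_zero, gen_zero]; exact one_mem _
    | succ n ih => rw [Nat.cast_succ, gen_add]; exact mul_mem ih h1
  have := h e.val
  rwa [ZMod.natCast_zmod_val] at this

/-- the permutations which fix the first vertex -/
def fib : (Po → Equiv.Perm Pt) →* Equiv.Perm Pt where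
  toFun f :=
    { toFun := fun z => cons (z 0) (f (z 0) (tl z))
      invFun := fun z => cons (z 0) ((f (z 0))⁻¹ (tl z))
      left_inv := fun z => by
        show cons (z 0) ((f (z 0)).symm (f (z 0) (tl z))) = z
        rw [Equiv.symm_apply_apply, cons_eta]
      right_inv := fun z => by
        show cons (z 0) (f (z 0) ((f (z 0)).symm (tl z))) = z
        rw [Equiv.apply_symm_apply, cons_eta] }
  map_one' := by ext1 z; exact cons_eta z
  map_mul' f g := by ext1 z; rfl

lemma fib_cons (f : Po → Equiv.Perm Pt) (a : Po) (z : Pt) : fib f (cons a z) = cons a (f a z) := rfl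

/-- the translations -/
def tr (s : Po) : Equiv.Perm Pt where
  toFun z := cons (z 0 + s) (tl z)
  invFun z := cons (z 0 - s) (tl z)
  left_inv z := by
    show cons (z 0 + s - s) (tl z) = z
    rw [add_sub_cancel_right, cons_eta]
  right_inv z := by
    show cons (z 0 - s + s) (tl z) = z
    rw [sub_add_cancel, cons_eta]

lemma tr_cons (s a : Po) (z : Pt) : tr s (cons a z) = cons (a + s) z := rfl
lemma tr_inv_cons (s a : Po) (z : Pt) : (tr s)⁻¹ (cons a z) = cons (a - s) z := rfl

lemma tr_add (s s' : Po) : tr (s + s') = tr s' * tr s := by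
  ext1 z
  show cons (z 0 + (s + s')) (tl z) = cons (z 0 + s + s') (tl z)
  rw [add_assoc]

lemma tr_zero : tr 0 = 1 := by
  ext1 z
  show cons (z 0 + 0) (tl z) = z
  rw [add_zero, cons_eta]

lemma gen_succ (k g : ℕ) (e : ZMod 3) : gen k (g + 1) e = tr (Pi.single g e) := by
  ext1 z
  rw [← cons_eta z, gen_apply, A_succ, tr_cons]

lemma tr_conj (s : Po) (f : Po → Equiv.Perm Pt) :
    tr s * fib f * (tr s)⁻¹ = fib fun a => f (a - s) := by
  ext1 z
  rw [← cons_eta z, Equiv.Perm.mul_apply, Equiv.Perm.mul_apply, tr_inv_cons, fib_cons, tr_cons,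
    fib_cons, sub_add_cancel]

/-- supported in `[0, m k)` -/
def Vx (k : ℕ) (a : Po) : Prop := ∀ i, m k ≤ i → a i = 0

lemma tr_mem {k : ℕ} {s : Po} (hs : Vx k s) : tr s ∈ Gk k := by
  have h : ∀ n ≤ m k, tr (fun i => if i < n then s i else 0) ∈ Gk k := by
    intro n
    induction n with
    | zero =>
      intro _
      have : (fun i => if i < 0 then s i else 0) = (0 : Po) := by
        funext i
        simp
      rw [this, tr_zero]
      exact one_mem _
    | succ n ih =>
      intro hn
      have : (fun i => if i < n + 1 then s i else 0) =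
          (fun i => if i < n then s i else 0) + (Pi.single n (s n) : Po) := by
        funext i
        rw [Pi.add_apply, Pi.single_apply]
        rcases lt_trichotomy i n with h | h | h
        · rw [if_pos (by omega), if_pos h, if_neg (by omega), add_zero]
        · subst h
          rw [if_pos (by omega), if_neg (lt_irrefl _), if_pos rfl, zero_add]
        · rw [if_neg (by omega), if_neg (by omega), if_neg (by omega), add_zero]
      rw [this, tr_add, ← gen_succ k]
      exact mul_mem (gen_mem (by omega) _) (ih (by omega))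
  have h1 := h (m k) le_rfl
  have : (fun i => if i < m k then s i else 0) = s := by
    funext i
    by_cases hi : i < m k
    · rw [if_pos hi]
    · rw [if_neg hi, hs i (not_lt.1 hi)]
  rwa [this] at h1

/-- the sections of the generator `0` -/
noncomputable def sc (k : ℕ) (o : Option ℕ) : Equiv.Perm Pt :=
  match o with
  | none => 1
  | some g => gen k g 1

lemma gen_b (k : ℕ) : gen k 0 1 = fib fun a => sc (k + 1) (decode k a) := by
  ext1 z
  rw [← cons_eta z, gen_apply, A_zero, fib_cons]
  unfold B sc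
  cases decode k (z 0) <;> rfl

open Classical in
/-- the copy of a permutation below the vertex `a` -/
noncomputable def dlt (a : Po) : Equiv.Perm Pt →* Equiv.Perm Pt :=
  fib.comp (MonoidHom.mulSingle (fun _ : Po => Equiv.Perm Pt) a)

lemma dlt_same (a : Po) (h : Equiv.Perm Pt) (z : Pt) : dlt a h (cons a z) = cons a (h z) := by
  classical
  show fib (Pi.mulSingle a h) (cons a z) = _
  rw [fib_cons, Pi.mulSingle_eq_same]

lemma dlt_ne {a a' : Po} (ha : a' ≠ a) (h : Equiv.Perm Pt) (z : Pt) :
    dlt a h (cons a' z) = cons a' z := by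
  classical
  show fib (Pi.mulSingle a h) (cons a' z) = _
  rw [fib_cons, Pi.mulSingle_eq_of_ne ha]
  rfl

/-- the conjugate of the generator `0` which acts below `a` as the generator `g` -/
noncomputable def bet (k : ℕ) (a : Po) (g : ℕ) : Po → Equiv.Perm Pt := fun a' =>
  sc (k + 1) (decode k (a' - (a - cw k g)))

lemma cw_Vx {k g : ℕ} (hg : g ≤ m (k + 1)) : Vx k (cw k g) := fun _ hi =>
  cw_supp (lt_of_le_of_lt hg (m_lt k)) hi

lemma bet_mem {k g : ℕ} {a : Po} (ha : Vx k a) (hg : g ≤ m (k + 1)) :
    fib (bet k a g) ∈ Gk k := by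
  have h1 : fib (bet k a g) = tr (a - cw k g) * gen k 0 1 * (tr (a - cw k g))⁻¹ := by
    rw [gen_b, tr_conj]
    rfl
  have h2 : tr (a - cw k g) ∈ Gk k := tr_mem fun i hi => by
    rw [Pi.sub_apply, ha i hi, cw_Vx hg i hi, sub_zero]
  rw [h1]
  exact mul_mem (mul_mem h2 (gen_mem (Nat.zero_le _) _)) (inv_mem h2)

lemma bet_same {k g : ℕ} (a : Po) (hg : g ≤ m (k + 1)) : bet k a g a = gen (k + 1) g 1 := by
  unfold bet
  rw [sub_sub_cancel, decode_cw hg]
  rfl

/-- below the other vertices one of two conjugates is trivial -/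
lemma bet_other {k g g' : ℕ} {a a' : Po} (ha : a' ≠ a) (hne : g ≠ g') :
    bet k a g a' = 1 ∨ bet k a g' a' = 1 := by
  unfold bet
  cases h1 : decode k (a' - (a - cw k g)) with
  | none => left; rfl
  | some g₁ =>
    cases h2 : decode k (a' - (a - cw k g')) with
    | none => right; rfl
    | some g₂ =>
      exfalso
      have e1 := (decode_some h1).2
      have e2 := (decode_some h2).2
      have e3 : cw k g₁ - cw k g = cw k g₂ - cw k g' := by
        rw [← e1, ← e2]; abel
      have e4 : g₁ ≠ g := by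
        rintro rfl
        have : a' - a = 0 := by
          have : a' - a = a' - (a - cw k g₁) - cw k g₁ := by abel
          rw [this, e1, sub_self]
        exact ha (sub_eq_zero.1 this)
      have e5 := cw_sidon e3 e4
      subst e5
      exact hne (cw_inj (sub_right_inj.1 e3))

/-- The commutators of two generators below `a`. -/
lemma dlt_comm_gen {k g g' : ℕ} {a : Po} (ha : Vx k a) (hg : g ≤ m (k + 1))
    (hg' : g' ≤ m (k + 1)) :
    dlt a ⁅gen (k + 1) g 1, gen (k + 1) g' 1⁆ ∈ ⁅Gk k, Gk k⁆ := by
  classical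
  by_cases hne : g = g'
  · subst hne
    rw [commutatorElement_self, map_one]
    exact one_mem _
  · have h1 : dlt a ⁅gen (k + 1) g 1, gen (k + 1) g' 1⁆ =
        ⁅fib (bet k a g), fib (bet k a g')⁆ := by
      rw [← map_commutatorElement]
      show fib (Pi.mulSingle a _) = _
      congr 1
      funext a'
      by_cases ha' : a' = a
      · subst ha'
        rw [Pi.mulSingle_eq_same]
        show _ = bet k a' g a' * bet k a' g' a' * (bet k a' g a')⁻¹ * (bet k a' g' a')⁻¹
        rw [bet_same _ hg, bet_same _ hg']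
        rfl
      · rw [Pi.mulSingle_eq_of_ne ha']
        show _ = bet k a g a' * bet k a g' a' * (bet k a g a')⁻¹ * (bet k a g' a')⁻¹
        rcases bet_other ha' hne with h | h <;> rw [h] <;> group
    rw [h1]
    exact Subgroup.commutator_mem_commutator (bet_mem ha hg) (bet_mem ha hg')

lemma comm_closure {P : Type*} [Group P] {X : Set P} {H : Subgroup P}
    (h1 : ∀ x ∈ X, ∀ h, h ∈ H ↔ x * h * x⁻¹ ∈ H) (h2 : ∀ x ∈ X, ∀ y ∈ X, ⁅x, y⁆ ∈ H) :
    ⁅Subgroup.closure X, Subgroup.closure X⁆ ≤ H := by
  have h3 : Subgroup.closure X ≤ Subgroup.normalizer (H : Set P) := by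
    rw [Subgroup.closure_le]
    intro x hx
    rw [SetLike.mem_coe, Subgroup.mem_normalizer_iff]
    exact fun h => h1 x hx h
  have conj : ∀ u ∈ Subgroup.closure X, ∀ h ∈ H, u * h * u⁻¹ ∈ H := fun u hu h hh =>
    (Subgroup.mem_normalizer_iff.1 (h3 hu) h).1 hh
  have step : ∀ x : P, (∀ y ∈ X, ⁅x, y⁆ ∈ H) → ∀ v ∈ Subgroup.closure X, ⁅x, v⁆ ∈ H := by
    intro x hx v hv
    induction hv using Subgroup.closure_induction with
    | mem v hv => exact hx v hv
    | one => rw [commutatorElement_one_right]; exact one_mem _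
    | mul v w hv hw ih1 ih2 =>
      have e : ⁅x, v * w⁆ = ⁅x, v⁆ * (v * ⁅x, w⁆ * v⁻¹) := by
        simp only [commutatorElement_def]; group
      rw [e]
      exact mul_mem ih1 (conj v hv _ ih2)
    | inv v hv ih =>
      have e : ⁅x, v⁻¹⁆ = v⁻¹ * ⁅x, v⁆⁻¹ * v⁻¹⁻¹ := by
        simp only [commutatorElement_def]; group
      rw [e]
      exact conj _ (inv_mem hv) _ (inv_mem ih)
  rw [Subgroup.commutator_le]
  intro u hu v hv
  rw [← commutatorElement_inv]
  refine inv_mem (step v (fun x hx => ?_) u hu)
  rw [← commutatorElement_inv]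
  exact inv_mem (step x (fun y hy => h2 x hx y hy) v hv)

/-- The group is weakly branch. -/
lemma dlt_comm {k : ℕ} {a : Po} (ha : Vx k a) {h : Equiv.Perm Pt}
    (hh : h ∈ ⁅Gk (k + 1), Gk (k + 1)⁆) : dlt a h ∈ ⁅Gk k, Gk k⁆ := by
  classical
  have key : ⁅Gk (k + 1), Gk (k + 1)⁆ ≤ ⁅Gk k, Gk k⁆.comap (dlt a) := by
    refine comm_closure ?_ ?_
    · rintro _ ⟨g, hg, rfl⟩ h
      rw [Subgroup.mem_comap, Subgroup.mem_comap]
      have h1 : dlt a (gen (k + 1) g 1 * h * (gen (k + 1) g 1)⁻¹) =
          fib (bet k a g) * dlt a h * (fib (bet k a g))⁻¹ := by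
        show fib (Pi.mulSingle a _) = fib _ * fib (Pi.mulSingle a h) * (fib _)⁻¹
        rw [← map_inv, ← map_mul, ← map_mul]
        congr 1
        funext a'
        by_cases ha' : a' = a
        · subst ha'
          rw [Pi.mulSingle_eq_same]
          show _ = bet k a' g a' * (Pi.mulSingle a' h : Po → Equiv.Perm Pt) a' *
            (bet k a' g a')⁻¹
          rw [Pi.mulSingle_eq_same, bet_same _ hg]
        · rw [Pi.mulSingle_eq_of_ne ha']
          show _ = bet k a g a' * (Pi.mulSingle a h : Po → Equiv.Perm Pt) a' * (bet k a g a')⁻¹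
          rw [Pi.mulSingle_eq_of_ne ha']
          group
      rw [h1]
      have h2 := bet_mem ha hg
      have hn : Gk k ≤ Subgroup.normalizer ((⁅Gk k, Gk k⁆ : Subgroup (Equiv.Perm Pt)) :
          Set (Equiv.Perm Pt)) := by
        intro u hu
        rw [Subgroup.mem_normalizer_iff]
        have hc : ∀ u ∈ Gk k, ∀ h ∈ ⁅Gk k, Gk k⁆, u * h * u⁻¹ ∈ ⁅Gk k, Gk k⁆ := by
          intro u hu h hh
          have hh' : h ∈ Gk k := Subgroup.commutator_le_self (Gk k) hh
          have e : u * h * u⁻¹ = ⁅u, h⁆ * h := by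
            simp only [commutatorElement_def]; group
          rw [e]
          exact mul_mem (Subgroup.commutator_mem_commutator hu hh') hh
        intro h
        refine ⟨hc u hu h, fun hh => ?_⟩
        have := hc _ (inv_mem hu) _ hh
        have e : u⁻¹ * (u * h * u⁻¹) * u⁻¹⁻¹ = h := by group
        rwa [e] at this
      exact Subgroup.mem_normalizer_iff.1 (hn h2) _
    · rintro _ ⟨g, hg, rfl⟩ _ ⟨g', hg', rfl⟩
      exact dlt_comm_gen ha hg hg'
  exact key hh

/-- the coordinates `0, …, p` of the image are determined by those of the point -/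
def TL (u : Equiv.Perm Pt) : Prop := ∀ (p : ℕ) (z z' : Pt), (∀ i ≤ p, z i = z' i) → u z p = u z' p

/-- the automorphisms of the tree -/
def TLs : Subgroup (Equiv.Perm Pt) where
  carrier := {u | TL u ∧ TL u⁻¹}
  one_mem' := ⟨fun p z z' h => h p le_rfl, fun p z z' h => h p le_rfl⟩
  mul_mem' := by
    rintro u v ⟨hu, hu'⟩ ⟨hv, hv'⟩
    refine ⟨fun p z z' h => hu p _ _ fun i hi => hv i _ _ fun j hj => h j (hj.trans hi), ?_⟩
    rw [mul_inv_rev]
    exact fun p z z' h => hv' p _ _ fun i hi => hu' i _ _ fun j hj => h j (hj.trans hi)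
  inv_mem' := by
    rintro u ⟨hu, hu'⟩
    exact ⟨hu', by rw [inv_inv]; exact hu⟩

lemma A_TL (e : ZMod 3) : ∀ (p k g : ℕ) (z z' : Pt), (∀ i ≤ p, z i = z' i) →
    A k g e z p = A k g e z' p := by
  intro p
  induction p with
  | zero =>
    intro k g z z' h
    have h0 := h 0 le_rfl
    rw [← cons_eta z, ← cons_eta z']
    cases g with
    | zero => rw [A_zero, A_zero, cons_zero, cons_zero, h0]
    | succ g => rw [A_succ, A_succ, cons_zero, cons_zero, h0]
  | succ p ih =>
    intro k g z z' h
    have h0 := h 0 (Nat.zero_le _)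
    have h1 : ∀ i ≤ p, tl z i = tl z' i := fun i hi => h (i + 1) (by omega)
    rw [← cons_eta z, ← cons_eta z']
    cases g with
    | zero =>
      rw [A_zero, A_zero, h0]
      show B (k + 1) (decode k (z' 0)) e (tl z) p = B (k + 1) (decode k (z' 0)) e (tl z') p
      cases decode k (z' 0) with
      | none => exact h1 p le_rfl
      | some g => exact ih _ _ _ _ h1
    | succ g =>
      rw [A_succ, A_succ]
      exact h1 p le_rfl

lemma Gk_TLs (k : ℕ) : Gk k ≤ TLs := by
  unfold Gk
  rw [Subgroup.closure_le]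
  rintro _ ⟨g, _, rfl⟩
  refine ⟨fun p z z' h => A_TL 1 p k g z z' h, ?_⟩
  rw [← gen_neg]
  exact fun p z z' h => A_TL _ p k g z z' h

lemma dlt_TL {u : Equiv.Perm Pt} (hu : TL u) (a : Po) : TL (dlt a u) := by
  intro p z z' h
  have h0 := h 0 (Nat.zero_le _)
  rw [← cons_eta z, ← cons_eta z', ← h0]
  by_cases ha : z 0 = a
  · rw [ha, dlt_same, dlt_same]
    cases p with
    | zero => rfl
    | succ p => exact hu p _ _ fun i hi => h (i + 1) (by omega)
  · rw [dlt_ne ha, dlt_ne ha]
    cases p with
    | zero => rfl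
    | succ p => exact h (p + 1) le_rfl

/-- the copy of a permutation below a path -/
noncomputable def dlv : List Po → (Equiv.Perm Pt →* Equiv.Perm Pt)
  | [] => MonoidHom.id _
  | a :: v => (dlt a).comp (dlv v)

/-- a path followed by a point -/
def app : List Po → Pt → Pt
  | [], z => z
  | a :: v, z => cons a (app v z)

lemma app_inj {v : List Po} {z z' : Pt} (h : app v z = app v z') : z = z' := by
  induction v with
  | nil => exact h
  | cons a v ih => exact ih (cons_inj.1 h).2

lemma dlv_same (v : List Po) (u : Equiv.Perm Pt) (z : Pt) :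
    dlv v u (app v z) = app v (u z) := by
  induction v with
  | nil => rfl
  | cons a v ih =>
    show dlt a (dlv v u) (cons a (app v z)) = cons a (app v (u z))
    rw [dlt_same, ih]

lemma dlv_other (v : List Po) (u : Equiv.Perm Pt) (y : Pt) (hy : ∀ z, y ≠ app v z) :
    dlv v u y = y := by
  induction v generalizing y with
  | nil => exact absurd rfl (hy y)
  | cons a v ih =>
    show dlt a (dlv v u) y = y
    rw [← cons_eta y]
    by_cases ha : y 0 = a
    · rw [ha, dlt_same, ih (tl y) fun z hz => hy z (by rw [← cons_eta y, ha, hz]; rfl)]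
    · rw [dlt_ne ha]

lemma dlv_TL {u : Equiv.Perm Pt} (hu : TL u) (v : List Po) : TL (dlv v u) := by
  induction v with
  | nil => exact hu
  | cons a v ih => exact dlt_TL ih a

lemma dlv_TLs {u : Equiv.Perm Pt} (hu : u ∈ TLs) (v : List Po) : dlv v u ∈ TLs :=
  ⟨dlv_TL hu.1 v, by rw [← map_inv]; exact dlv_TL hu.2 v⟩

lemma dlv_append (v w : List Po) (u : Equiv.Perm Pt) : dlv (v ++ w) u = dlv v (dlv w u) := by
  induction v with
  | nil => rfl
  | cons a v ih =>
    show dlt a (dlv (v ++ w) u) = dlt a (dlv v (dlv w u))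
    rw [ih]

/-- valid paths -/
def VL : ℕ → List Po → Prop
  | _, [] => True
  | k, a :: v => Vx k a ∧ VL (k + 1) v

/-- valid points -/
def VP (k : ℕ) (z : Pt) : Prop := ∀ i, Vx (k + i) (z i)

lemma VL_append {k : ℕ} {v w : List Po} (hv : VL k v) (hw : VL (k + v.length) w) :
    VL k (v ++ w) := by
  induction v generalizing k with
  | nil => exact hw
  | cons a v ih =>
    refine ⟨hv.1, ih hv.2 ?_⟩
    rw [List.length_cons] at hw
    rwa [show k + 1 + v.length = k + (v.length + 1) by ring]

lemma VP_app {k : ℕ} {v : List Po} {z : Pt} (hv : VL k v) (hz : VP (k + v.length) z) :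
    VP k (app v z) := by
  induction v generalizing k with
  | nil => exact hz
  | cons a v ih =>
    rw [List.length_cons, show k + (v.length + 1) = k + 1 + v.length by ring] at hz
    have h1 := ih hv.2 hz
    intro i
    cases i with
    | zero => exact hv.1
    | succ i =>
      have := h1 i
      rwa [show k + 1 + i = k + (i + 1) by ring] at this

/-- the beginning of a point -/
def pre : ℕ → Pt → List Po
  | 0, _ => []
  | p + 1, z => z 0 :: pre p (tl z)

lemma pre_length (p : ℕ) (z : Pt) : (pre p z).length = p := by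
  induction p generalizing z with
  | zero => rfl
  | succ p ih => show (pre p (tl z)).length + 1 = p + 1; rw [ih]

lemma pre_VL (p : ℕ) {k : ℕ} {z : Pt} (hz : VP k z) : VL k (pre p z) := by
  induction p generalizing k z with
  | zero => trivial
  | succ p ih =>
    refine ⟨hz 0, ih fun i => ?_⟩
    have := hz (i + 1)
    rwa [show k + (i + 1) = k + 1 + i by ring] at this

lemma app_pre (p : ℕ) (z y : Pt) : ∀ i < p, app (pre p z) y i = z i := by
  induction p generalizing z with
  | zero => intro i hi; omega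
  | succ p ih =>
    intro i hi
    show cons (z 0) (app (pre p (tl z)) y) i = z i
    cases i with
    | zero => rfl
    | succ i => exact ih (tl z) i (by omega)

/-- the derived series -/
def Ds (k : ℕ) : ℕ → Subgroup (Equiv.Perm Pt)
  | 0 => Gk k
  | j + 1 => ⁅Ds k j, Ds k j⁆

lemma dlv_comm {v : List Po} : ∀ {k : ℕ}, VL k v → ∀ {u : Equiv.Perm Pt},
    u ∈ Ds (k + v.length) 1 → dlv v u ∈ Ds k 1 := by
  induction v with
  | nil => intro k _ u hu; exact hu
  | cons a v ih =>
    intro k hv u hu
    rw [List.length_cons, show k + (v.length + 1) = k + 1 + v.length by ring] at hu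
    exact dlt_comm hv.1 (ih hv.2 hu)

/-- a nontrivial commutator -/
lemma exists_comm (k : ℕ) : ∃ u ∈ Ds k 1, ∃ z, VP k z ∧ u z ≠ z := by
  have hm := one_le_m (k + 1)
  have hs : Vx k (Pi.single 0 1 : Po) := fun i hi => Pi.single_eq_of_ne (by
    have := m_pos k; omega) _
  refine ⟨⁅gen k 0 1, tr (Pi.single 0 1)⁆, Subgroup.commutator_mem_commutator
    (gen_mem (Nat.zero_le _) _) (tr_mem hs), cons (cw k 1) 0, ?_, ?_⟩
  · intro i
    cases i with
    | zero => exact cw_Vx hm
    | succ i => exact fun _ _ => rfl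
  · have hd : decode k (cw k 1 - Pi.single 0 1) = none := by
      cases h : decode k (cw k 1 - Pi.single 0 1) with
      | none => rfl
      | some g =>
        exfalso
        have h1 := (decode_some h).2
        have h2 : 1 = g := by
          refine cw_dist (k := k) {0} (fun i hi => ?_) (by
            have := four_le_U k
            rw [Finset.card_singleton]
            omega)
          rw [Finset.mem_singleton] at hi
          rw [← h1, Pi.sub_apply, Pi.single_eq_of_ne hi, sub_zero]
        subst h2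
        have h3 := congrFun h1 0
        rw [Pi.sub_apply, Pi.single_eq_same] at h3
        have h4 : (1 : ZMod 3) = 0 := by linear_combination -h3
        exact one_ne_zero h4
    have hdc : decode k (cw k 1) = some 1 := decode_cw hm
    rw [commutatorElement_def, Equiv.Perm.mul_apply, Equiv.Perm.mul_apply, Equiv.Perm.mul_apply,
      tr_inv_cons, ← gen_neg, gen_apply k 0 (-1), A_zero, hd]
    show gen k 0 1 (tr (Pi.single 0 1) (cons (cw k 1 - Pi.single 0 1) 0)) ≠ _
    rw [tr_cons, sub_add_cancel, gen_apply, A_zero, hdc]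
    intro h
    have h2 : A (k + 1) (0 + 1) 1 (cons 0 0) = cons 0 0 := by
      have e : (cons 0 0 : Pt) = 0 := by
        funext n; cases n <;> rfl
      rw [e]
      exact (cons_inj.1 h).2
    rw [A_succ, cons_inj] at h2
    have := congrFun h2.1 0
    simp at this

/-- The main induction. -/
theorem rigid (j : ℕ) : ∀ (k : ℕ) (v : List Po), VL k v → ∃ u ∈ TLs,
    (∃ z, VP (k + v.length) z ∧ u z ≠ z) ∧ dlv v u ∈ Ds k (j + 1) := by
  induction j with
  | zero =>
    intro k v hv
    obtain ⟨u, hu, z, hz, hne⟩ := exists_comm (k + v.length)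
    exact ⟨u, Gk_TLs _ (Subgroup.commutator_le_self _ hu), ⟨z, hz, hne⟩, dlv_comm hv hu⟩
  | succ j ih =>
    intro k v hv
    obtain ⟨u, hu, ⟨ξ, hξ, hne⟩, hD⟩ := ih k v hv
    obtain ⟨p, hp⟩ : ∃ p, u ξ p ≠ ξ p := Function.ne_iff.1 hne
    set w := pre (p + 1) ξ with hw
    have hwV : VL (k + v.length) w := pre_VL _ hξ
    obtain ⟨u', hu', ⟨η, hη, hne'⟩, hD'⟩ := ih k (v ++ w) (VL_append hv hwV)
    rw [dlv_append] at hD'
    have hmove : ∀ y y', u (app w y) ≠ app w y' := by
      intro y y' h
      have h1 : u (app w y) p = u ξ p := hu.1 p _ _ fun i hi => by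
        rw [hw]; exact app_pre _ _ _ i (by omega)
      have h2 : app w y' p = ξ p := by rw [hw]; exact app_pre _ _ _ p (by omega)
      rw [h, h2] at h1
      exact hp h1.symm
    refine ⟨⁅u, dlv w u'⁆, ?_, ⟨app w η, ?_, ?_⟩, ?_⟩
    · rw [commutatorElement_def]
      have := dlv_TLs hu' w
      exact mul_mem (mul_mem (mul_mem hu this) (inv_mem hu)) (inv_mem this)
    · refine VP_app hwV ?_
      rwa [List.length_append, ← add_assoc] at hη
    · rw [commutatorElement_def, Equiv.Perm.mul_apply, Equiv.Perm.mul_apply,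
        Equiv.Perm.mul_apply, ← map_inv, dlv_same]
      have h1 : dlv w u' (u⁻¹ (app w (u'⁻¹ η))) = u⁻¹ (app w (u'⁻¹ η)) := by
        refine dlv_other _ _ _ fun z hz => ?_
        refine hmove z (u'⁻¹ η) ?_
        rw [← hz]
        exact Equiv.apply_symm_apply u _
      rw [h1]
      have h2 : u (u⁻¹ (app w (u'⁻¹ η))) = app w (u'⁻¹ η) := Equiv.apply_symm_apply u _
      rw [h2]
      intro h3
      have h4 := app_inj h3
      apply hne'
      have h5 : u' (u'⁻¹ η) = η := Equiv.apply_symm_apply u' _
      rw [h4] at h5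
      exact h5
    · have h1 : dlv v ⁅u, dlv w u'⁆ = ⁅dlv v u, dlv v (dlv w u')⁆ := map_commutatorElement _ _ _
      rw [h1]
      exact Subgroup.commutator_mem_commutator hD hD'

/-- The groups are not solvable. -/
theorem not_solvable (k : ℕ) : ¬ Group.IsSolvable (Gk k) := by
  rintro ⟨n, hn⟩
  have key : ∀ j, (derivedSeries (Gk k) j).map (Gk k).subtype = Ds k j := by
    intro j
    induction j with
    | zero =>
      show (⊤ : Subgroup (Gk k)).map (Gk k).subtype = Gk k
      rw [← MonoidHom.range_eq_map, Subgroup.range_subtype]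
    | succ j ih =>
      rw [derivedSeries_succ, Subgroup.map_commutator, ih]
      rfl
  obtain ⟨u, _, ⟨z, _, hne⟩, hD⟩ := rigid n k [] trivial
  have h1 : Ds k (n + 1) = ⊥ := by
    show ⁅Ds k n, Ds k n⁆ = ⊥
    rw [← key n, hn, Subgroup.map_bot, Subgroup.commutator_bot_left]
  rw [h1, Subgroup.mem_bot] at hD
  have h2 : u = 1 := hD
  rw [h2] at hne
  exact hne rfl

/-- The groups are finitely generated. -/
theorem fg (k : ℕ) : Group.FG (Gk k) := by
  rw [Group.fg_iff_subgroup_fg]
  refine (Subgroup.fg_iff _).2 ⟨_, rfl, ?_⟩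
  refine ((Set.finite_Iic (m k)).image fun g => gen k g 1).subset ?_
  rintro _ ⟨g, hg, rfl⟩
  exact ⟨g, hg, rfl⟩

end Pool.Agent.L5helper5.WP
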