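import Pool.Agent.L5helper5.WP.Atm
import Pool.Agent.L5helper5.WP.Num
import Pool.Agent.L5helper5.WP.Solv

/-!
# A finitely generated nonsolvable group whose word problem is not hard for `ALOGTIME`
-/

set_option autoImplicit false

namespace Pool.Agent.L5helper5.WP

open Finset

lemma rep_step {k g L : ℕ} {W : Wd} {e : ZMod 3} {γ : Equiv.Perm Pt} (hg : g ≤ m k)
    (h1 : ∀ i, (W i).1 ≤ m k) (h3 : ∀ z, run k W L z = γ z) :
    ∃ (L' : ℕ) (W' : Wd), (∀ i, (W' i).1 ≤ m k) ∧ (∀ i, L' ≤ i → W' i = (0, 0)) ∧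
      ∀ z, run k W' L' z = (gen k g e * γ) z := by
  refine ⟨L + 1, fun i => if i < L then W i else if i = L then (g, e) else (0, 0),
    fun i => ?_, fun i hi => ?_, fun z => ?_⟩
  · simp only
    split_ifs
    · exact h1 i
    · exact hg
    · exact Nat.zero_le _
  · simp only
    rw [if_neg (by omega), if_neg (by omega)]
  · have h4 : (fun i => if i < L then W i else if i = L then (g, e) else (0, 0)) L = (g, e) := by
      simp
    show A k _ _ (run k _ L z) = gen k g e (γ z)
    rw [h4, ← h3, gen_apply]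
    congr 1
    exact run_congr (fun i hi => if_pos hi) z

/-- The elements are given by words. -/
theorem rep {k : ℕ} {γ : Equiv.Perm Pt} (hγ : γ ∈ Gk k) : ∃ (L : ℕ) (W : Wd),
    (∀ i, (W i).1 ≤ m k) ∧ (∀ i, L ≤ i → W i = (0, 0)) ∧ ∀ z, run k W L z = γ z := by
  unfold Gk at hγ
  induction hγ using Subgroup.closure_induction_left with
  | one => exact ⟨0, fun _ => (0, 0), fun _ => Nat.zero_le _, fun _ _ => rfl, fun _ => rfl⟩
  | mul_left x hx y hy ih =>
    obtain ⟨g, hg, rfl⟩ := hx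
    obtain ⟨L, W, h1, -, h3⟩ := ih
    exact rep_step hg h1 h3
  | inv_mul_cancel x hx y hy ih =>
    obtain ⟨g, hg, rfl⟩ := hx
    obtain ⟨L, W, h1, -, h3⟩ := ih
    rw [← gen_neg]
    exact rep_step hg h1 h3

lemma run_pad {k L n : ℕ} {W : Wd} (h : ∀ i, L ≤ i → W i = (0, 0)) (hn : L ≤ n) (z : Pt) :
    run k W n z = run k W L z := by
  induction n, hn using Nat.le_induction with
  | base => rfl
  | succ n hn ih =>
    show A k (W n).1 (W n).2 (run k W n z) = _
    rw [h n hn, A_exp_zero, ih]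

theorem parity_not_reducible {A : Type} [Finite A] (φ : A → Gk 0) :
    ¬ AC0Reducible PARITY {w : List A | (w.map φ).prod = 1} := by
  classical
  have := Fintype.ofFinite A
  choose L W h1 h2 h3 using fun σ => rep (inv_mem (φ σ).2)
  have hle : ∀ σ, L σ ≤ ∑ τ, L τ + 1 := fun σ =>
    (Finset.single_le_sum (fun _ _ => Nat.zero_le _) (Finset.mem_univ σ)).trans (Nat.le_succ _)
  have h4 := no_reduction (A := A) (L := ∑ τ, L τ + 1) (ψ := fun σ => (φ σ : Equiv.Perm Pt))
    (ω := W) (Nat.succ_pos _) h1 fun σ z => by rw [run_pad (h2 σ) (hle σ), h3]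
  have h5 : {w : List A | (w.map fun σ => (φ σ : Equiv.Perm Pt)).prod = 1} =
      {w : List A | (w.map φ).prod = 1} := by
    ext w
    have h6 : (w.map fun σ => (φ σ : Equiv.Perm Pt)).prod = ((w.map φ).prod : Gk 0) := by
      rw [Subgroup.val_list_prod, List.map_map]
      rfl
    show (w.map fun σ => (φ σ : Equiv.Perm Pt)).prod = 1 ↔ (w.map φ).prod = 1
    rw [h6, OneMemClass.coe_eq_one]
  rwa [h5] at h4

end Pool.Agent.L5helper5.WP
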